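import Pool.Agent.H56T.Stm5

/-!
# COC: the integer cocycle on the reflections
-/

set_option autoImplicit false

namespace Pool.Agent.H56T.GA.COC

open Pool.Agent.H56T.LR Finset

section alts

variable {Γ Δ : Type} [Monoid Γ] [Monoid Δ]

lemma map_alt (f : Γ →* Δ) (n : ℕ) : ∀ x y : Γ, f (alt x y n) = alt (f x) (f y) n := by
  induction n with
  | zero => intro x y; simp [alt]
  | succ n ih => intro x y; simp only [alt, map_mul, ih]

lemma alt_eq (n : ℕ) : ∀ x y : Γ, alt x y n = (if Even n then 1 else x) * (y * x) ^ (n / 2) := by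
  induction n with
  | zero => intro x y; simp [alt]
  | succ n ih =>
    intro x y
    rw [alt, ih]
    rcases Nat.even_or_odd n with h | h
    · obtain ⟨k, rfl⟩ := h
      have h1 : ¬ Even (k + k + 1) := by
        rw [Nat.not_even_iff_odd]
        exact ⟨k, by ring⟩
      have h2 : Even (k + k) := ⟨k, rfl⟩
      rw [if_pos h2, if_neg h1, one_mul]
      have h3 : (k + k) / 2 = k := by omega
      have h4 : (k + k + 1) / 2 = k := by omega
      rw [h3, h4, mul_pow_mul]
    · obtain ⟨k, rfl⟩ := h
      have h1 : ¬ Even (2 * k + 1) := by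
        rw [Nat.not_even_iff_odd]
        exact ⟨k, rfl⟩
      have h2 : Even (2 * k + 1 + 1) := ⟨k + 1, by ring⟩
      rw [if_neg h1, if_pos h2, one_mul]
      have h3 : (2 * k + 1) / 2 = k := by omega
      have h4 : (2 * k + 1 + 1) / 2 = k + 1 := by omega
      rw [h3, h4, mul_assoc, mul_pow_mul, ← mul_assoc, ← pow_succ']

end alts

section inv

variable {W : Type} [Group W]

lemma conj_pow {x y : W} (hx : x * x = 1) (hy : y * y = 1) (k : ℕ) :
    (x * y) ^ k * x * ((x * y) ^ k)⁻¹ = (x * y) ^ (2 * k) * x := by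
  have hx' : x⁻¹ = x := inv_eq_of_mul_eq_one_right hx
  have hy' : y⁻¹ = y := inv_eq_of_mul_eq_one_right hy
  have h1 : x * ((x * y) ^ k)⁻¹ = (x * y) ^ k * x := by
    rw [← inv_pow, mul_inv_rev, hx', hy', mul_pow_mul]
  rw [mul_assoc, h1, ← mul_assoc, ← pow_add, two_mul]

lemma conj_alt {x y : W} (hx : x * x = 1) (hy : y * y = 1) (n : ℕ) :
    alt y x n * x * (alt y x n)⁻¹ =
      if Even n then (x * y) ^ n * x else (y * x) ^ n * y := by
  have hy' : y⁻¹ = y := inv_eq_of_mul_eq_one_right hy
  rw [alt_eq]
  rcases Nat.even_or_odd n with h | h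
  · rw [if_pos h, if_pos h, one_mul, conj_pow hx hy]
    obtain ⟨k, rfl⟩ := h
    congr 2
    omega
  · rw [if_neg (Nat.not_even_iff_odd.mpr h), if_neg (Nat.not_even_iff_odd.mpr h)]
    have h2 : 2 * (n / 2) + 1 = n := by
      obtain ⟨k, rfl⟩ := h
      omega
    rw [mul_inv_rev, hy', show y * (x * y) ^ (n / 2) * x * (((x * y) ^ (n / 2))⁻¹ * y) =
      y * ((x * y) ^ (n / 2) * x * ((x * y) ^ (n / 2))⁻¹) * y by simp only [mul_assoc], conj_pow hx hy]
    rw [← mul_assoc y, ← mul_pow_mul, mul_assoc _ y x, mul_assoc _ (y * x) y, ← mul_assoc]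
    nth_rw 2 [← h2]
    rw [pow_succ]

lemma refl_pow {x y : W} (hx : x * x = 1) (hy : y * y = 1) {m : ℕ} (h : (x * y) ^ m = 1) {k : ℕ} (hk : k < m) :
    (x * y) ^ k * x = (y * x) ^ (m - 1 - k) * y := by
  have hx' : x⁻¹ = x := inv_eq_of_mul_eq_one_right hx
  have hy' : y⁻¹ = y := inv_eq_of_mul_eq_one_right hy
  have h1 : (y * x) ^ (m - 1 - k) = ((x * y) ^ (m - 1 - k))⁻¹ := by
    rw [← inv_pow, mul_inv_rev, hx', hy']
  have h2 : (x * y) ^ (m - 1 - k) * ((x * y) ^ k * (x * y)) = 1 := by
    rw [← pow_succ, ← pow_add, show m - 1 - k + (k + 1) = m by omega, h]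
  rw [h1, eq_inv_mul_iff_mul_eq]
  rw [← mul_assoc, ← mul_assoc] at h2
  rw [← mul_assoc, eq_comm]
  calc y = ((x * y) ^ (m - 1 - k) * (x * y) ^ k * x * y) * y := by rw [h2, one_mul]
    _ = _ := by rw [mul_assoc _ y y, hy, mul_one]

/-- the conjugation action on the functions -/
def act (W : Type) [Group W] : W →* MulAut (Multiplicative (W → ℤ)) where
  toFun g :=
    { toFun := fun F => Multiplicative.ofAdd fun t => (Multiplicative.toAdd F) (g⁻¹ * t * g)
      invFun := fun F => Multiplicative.ofAdd fun t => (Multiplicative.toAdd F) (g * t * g⁻¹)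
      left_inv := fun F => by
        apply Multiplicative.toAdd.injective
        funext t
        simp only [toAdd_ofAdd]
        congr 1
        group
      right_inv := fun F => by
        apply Multiplicative.toAdd.injective
        funext t
        simp only [toAdd_ofAdd]
        congr 1
        group
      map_mul' := fun F G => rfl }
  map_one' := by
    refine MulEquiv.ext fun F => ?_
    apply Multiplicative.toAdd.injective
    funext t
    change (Multiplicative.toAdd F) (1⁻¹ * t * 1) = (Multiplicative.toAdd F) t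
    congr 1
    group
  map_mul' g h := by
    refine MulEquiv.ext fun F => ?_
    apply Multiplicative.toAdd.injective
    funext t
    change (Multiplicative.toAdd F) ((g * h)⁻¹ * t * (g * h)) = (Multiplicative.toAdd F) (h⁻¹ * (g⁻¹ * t * g) * h)
    congr 1
    group

/-- the semidirect product -/
abbrev GG (W : Type) [Group W] : Type := Multiplicative (W → ℤ) ⋊[act W] W

/-- the value of the function part -/
def val (g : GG W) (t : W) : ℤ := Multiplicative.toAdd g.left t

lemma val_mul (g h : GG W) (t : W) : val (g * h) t = val g t + val h (g.right⁻¹ * t * g.right) := rfl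

lemma val_one (t : W) : val (1 : GG W) t = 0 := rfl

open Classical in
/-- the generators -/
noncomputable def aa (s : W) : GG W := ⟨Multiplicative.ofAdd fun t => if t = s then 1 else 0, s⟩

open Classical in
lemma val_aa (s t : W) : val (aa s) t = if t = s then 1 else 0 := rfl

lemma right_aa (s : W) : (aa s).right = s := rfl

lemma right_alt (n : ℕ) : ∀ x y : W, (alt (aa x) (aa y) n).right = alt x y n := by
  induction n with
  | zero => intro x y; rfl
  | succ n ih =>
    intro x y
    rw [alt, SemidirectProduct.mul_right, ih, right_aa, alt]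

open Classical in
lemma val_alt (n : ℕ) : ∀ (x y : W) (_ : x * x = 1) (_ : y * y = 1) (t : W), val (alt (aa x) (aa y) n) t =
    ∑ k ∈ range n, if t = (if Even n then (y * x) ^ k * y else (x * y) ^ k * x) then (1 : ℤ) else 0 := by
  induction n with
  | zero => intro x y hx hy t; simp [alt, val_one]
  | succ n ih =>
    intro x y hx hy t
    rw [alt, val_mul, ih y x hy hx, right_alt, val_aa, sum_range_succ]
    have h1 : ∀ k : ℕ, (if Even n then (x * y) ^ k * x else (y * x) ^ k * y) =
        (if Even (n + 1) then (y * x) ^ k * y else (x * y) ^ k * x) := by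
      intro k
      rcases Nat.even_or_odd n with h | h
      · rw [if_pos h, if_neg (Nat.not_even_iff_odd.mpr h.add_one)]
      · rw [if_neg (Nat.not_even_iff_odd.mpr h), if_pos h.add_one]
    have h2 : ((alt y x n)⁻¹ * t * alt y x n = x) ↔
        t = (if Even (n + 1) then (y * x) ^ n * y else (x * y) ^ n * x) := by
      rw [← h1, ← conj_alt hx hy]
      generalize alt y x n = A
      constructor
      · intro h
        rw [← h]
        group
      · intro h
        rw [h]
        group
    simp only [h1, h2]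

lemma alt_comm {x y : W} (hx : x * x = 1) (hy : y * y = 1) {m : ℕ} (h : (x * y) ^ m = 1)
    (hW : alt x y m = alt y x m) : alt (aa x) (aa y) m = alt (aa y) (aa x) m := by
  classical
  have hx' : x⁻¹ = x := inv_eq_of_mul_eq_one_right hx
  have hy' : y⁻¹ = y := inv_eq_of_mul_eq_one_right hy
  have h' : (y * x) ^ m = 1 := by
    have : (y * x) ^ m = ((x * y) ^ m)⁻¹ := by rw [← inv_pow, mul_inv_rev, hx', hy']
    rw [this, h, inv_one]
  refine SemidirectProduct.ext ?_ ?_
  · apply Multiplicative.toAdd.injective
    funext t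
    change val _ t = val _ t
    rw [val_alt m x y hx hy, val_alt m y x hy hx, ← sum_range_reflect]
    refine sum_congr rfl fun k hk => ?_
    have hk' : k < m := mem_range.mp hk
    have e1 : (y * x) ^ (m - 1 - k) * y = (x * y) ^ k * x := (refl_pow hx hy h hk').symm
    have e2 : (x * y) ^ (m - 1 - k) * x = (y * x) ^ k * y := (refl_pow hy hx h' hk').symm
    rw [e1, e2]
  · rw [right_alt, right_alt, hW]

end inv

theorem t_COC' (V : Type) (M : CoxeterMatrix V) (π : ArtG M →* M.Group)
    (hπ : ∀ v, π (sig M v) = M.toCoxeterSystem.simple v) : ∃ C, IsCoc M π C := by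
  classical
  set s : V → M.Group := M.toCoxeterSystem.simple with hs
  have hss : ∀ v, s v * s v = 1 := fun v => M.toCoxeterSystem.simple_mul_simple_self v
  have hrel : ∀ r ∈ artRel M, FreeGroup.lift (fun v => aa (s v)) r = 1 := by
    rintro r ⟨u, v, rfl⟩
    rw [map_mul, map_inv, map_alt, map_alt, FreeGroup.lift_apply_of, FreeGroup.lift_apply_of, mul_inv_eq_one]
    refine alt_comm (hss u) (hss v) (M.toCoxeterSystem.simple_mul_simple_pow u v) ?_
    have h1 : alt (sig M u) (sig M v) (M u v) = alt (sig M v) (sig M u) (M u v) := by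
      have h2 : (PresentedGroup.mk (artRel M)) (alt (FreeGroup.of u) (FreeGroup.of v) (M u v) *
          (alt (FreeGroup.of v) (FreeGroup.of u) (M u v))⁻¹) = 1 :=
        PresentedGroup.one_of_mem ⟨u, v, rfl⟩
      rw [map_mul, map_inv, map_alt, map_alt, mul_inv_eq_one] at h2
      exact h2
    have h3 := congrArg π h1
    rw [map_alt, map_alt, hπ, hπ] at h3
    exact h3
  let Θ : ArtG M →* GG M.Group := PresentedGroup.toGroup hrel
  have hΘ : ∀ v, Θ (sig M v) = aa (s v) := fun v => PresentedGroup.toGroup.of hrel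
  have hr : ∀ g, (Θ g).right = π g := by
    have : (SemidirectProduct.rightHom).comp Θ = π := by
      apply PresentedGroup.ext
      intro v
      have h1 := hΘ v
      have h2 := hπ v
      change (Θ (sig M v)).right = π (sig M v)
      rw [h1, h2, right_aa]
    intro g
    exact DFunLike.congr_fun this g
  refine ⟨fun g t => val (Θ g) t, fun g h t => ?_, fun v => ?_, fun v t ht => ?_⟩
  · change val (Θ (g * h)) t = _
    rw [map_mul, val_mul, hr]
  · change val (Θ (sig M v)) _ = _
    rw [hΘ, val_aa, if_pos rfl]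
  · change val (Θ (sig M v)) _ = _
    rw [hΘ, val_aa, if_neg ht]

end Pool.Agent.H56T.GA.COC

namespace Pool.Agent.H56T.GA

theorem t_COC : S_COC := COC.t_COC'

end Pool.Agent.H56T.GA
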