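import Pool.Agent.H56T.Stm5

/-!
# CRD: the values of the cocycle on the lifts
-/

set_option autoImplicit false

namespace Pool.Agent.H56T.GA.CRD

open Pool.Agent.H56T.LR Finset Pool.Agent.Helper376.LC

variable {V : Type} {M : CoxeterMatrix V} {π : ArtG M →* M.Group} {C : ArtG M → M.Group → ℤ}

lemma coc_one (hC : IsCoc M π C) (t : M.Group) : C 1 t = 0 := by
  have h := hC.mul 1 1 t
  rw [map_one, mul_one, inv_one, one_mul, mul_one] at h
  omega

open Classical in
lemma coc_word (hπ : ∀ v, π (sig M v) = M.toCoxeterSystem.simple v) (hC : IsCoc M π C) (ω : List V) :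
    ∀ t : M.Group, C ((ω.map (sig M)).prod) t = ((M.toCoxeterSystem.leftInvSeq ω).count t : ℤ) := by
  induction ω with
  | nil => intro t; simp [coc_one hC]
  | cons i ω ih =>
    intro t
    rw [List.map_cons, List.prod_cons, hC.mul, hπ, ih]
    have h1 : M.toCoxeterSystem.leftInvSeq (i :: ω) = M.toCoxeterSystem.simple i ::
        (M.toCoxeterSystem.leftInvSeq ω).map (MulAut.conj (M.toCoxeterSystem.simple i)) := rfl
    rw [h1, List.count_cons]
    have h2 : ((M.toCoxeterSystem.leftInvSeq ω).map (MulAut.conj (M.toCoxeterSystem.simple i))).count t =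
        (M.toCoxeterSystem.leftInvSeq ω).count
          ((M.toCoxeterSystem.simple i)⁻¹ * t * M.toCoxeterSystem.simple i) := by
      conv_lhs => rw [show t = MulAut.conj (M.toCoxeterSystem.simple i)
        ((M.toCoxeterSystem.simple i)⁻¹ * t * M.toCoxeterSystem.simple i) by
          rw [MulAut.conj_apply]; group]
      exact List.count_map_of_injective _ _ (MulAut.conj (M.toCoxeterSystem.simple i)).injective _
    rw [h2]
    by_cases h3 : t = M.toCoxeterSystem.simple i
    · rw [h3, hC.gen, if_pos (by simp)]
      push_cast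
      ring
    · rw [hC.gen' i t h3, if_neg (by simpa using fun h => h3 h.symm)]
      push_cast
      ring

theorem t_CRD' (V : Type) (M : CoxeterMatrix V) (π : ArtG M →* M.Group) (C : ArtG M → M.Group → ℤ)
    (hπ : ∀ v, π (sig M v) = M.toCoxeterSystem.simple v) (hC : IsCoc M π C) (w t : M.Group) :
    (M.toCoxeterSystem.IsLeftInversion w t → C (lft M w) t = 1) ∧
    (¬ M.toCoxeterSystem.IsLeftInversion w t → C (lft M w) t = 0) := by
  classical
  obtain ⟨hred, hw⟩ := (M.toCoxeterSystem.exists_isReduced w).choose_spec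
  have hl : C (lft M w) t =
      ((M.toCoxeterSystem.leftInvSeq (M.toCoxeterSystem.exists_isReduced w).choose).count t : ℤ) :=
    coc_word hπ hC _ t
  rw [hl]
  generalize (M.toCoxeterSystem.exists_isReduced w).choose = ω at hred hw
  have hmem : t ∈ M.toCoxeterSystem.leftInvSeq ω ↔ M.toCoxeterSystem.IsLeftInversion w t := by
    constructor
    · intro h
      rw [hw]
      exact M.toCoxeterSystem.isLeftInversion_of_mem_leftInvSeq hred h
    · intro h
      have h1 : t ∈ Ninv M.toCoxeterSystem w := h
      rw [mem_Ninv_iff, hw, ← CoxeterSystem.wordProd_reverse, eta_wordProd,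
        CoxeterSystem.rightInvSeq_reverse] at h1
      by_contra hn
      rw [List.count_eq_zero_of_not_mem (by rwa [List.mem_reverse])] at h1
      simp at h1
  refine ⟨fun h => ?_, fun h => ?_⟩
  · have := List.count_eq_one_of_mem (hred.nodup_leftInvSeq) (hmem.mpr h)
    rw [this]
    rfl
  · rw [List.count_eq_zero_of_not_mem (fun h' => h (hmem.mp h'))]
    rfl

end Pool.Agent.H56T.GA.CRD

namespace Pool.Agent.H56T.GA

theorem t_CRD : S_CRD := CRD.t_CRD'

end Pool.Agent.H56T.GA
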