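import Pool.Agent.H56T.Stm5

/-!
# Piece FSR of project GA: a reflection of full support
-/

set_option autoImplicit false

namespace Pool.Agent.H56T.GA.FSR

open Pool.Agent.W907.SG Pool.Agent.H56T.LR Finset Pool.Agent.H56T.GA

variable {V : Type} [Fintype V] [DecidableEq V] (M : CoxeterMatrix V)

/-- the entries of the form -/
noncomputable def bf (u v : V) : ℝ := if M u v = 0 then -1 else - Real.cos (Real.pi / M u v)

lemma bf_self (v : V) : bf M v v = 1 := by
  unfold bf
  simp [M.diagonal v]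

lemma bf_symm (u v : V) : bf M u v = bf M v u := by
  unfold bf
  rw [M.symmetric u v]

lemma bf_nonpos (u v : V) (h : u ≠ v) : bf M u v ≤ 0 := by
  unfold bf
  split_ifs with h0
  · norm_num
  · have h1 : M u v ≠ 1 := M.off_diagonal u v h
    have h2 : 2 ≤ M u v := by omega
    have h3 : (2 : ℝ) ≤ (M u v : ℝ) := by exact_mod_cast h2
    have : 0 ≤ Real.cos (Real.pi / M u v) := by
      apply Real.cos_nonneg_of_neg_pi_div_two_le_of_le
      · have : 0 ≤ Real.pi / (M u v : ℝ) := by positivity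
        linarith [Real.pi_pos]
      · exact div_le_div_of_nonneg_left Real.pi_pos.le (by norm_num) h3
    linarith

lemma bf_neg (u v : V) (h : u ≠ v) (h2' : M u v ≠ 2) : bf M u v < 0 := by
  unfold bf
  split_ifs with h0
  · norm_num
  · have h1 : M u v ≠ 1 := M.off_diagonal u v h
    have h2 : 3 ≤ M u v := by omega
    have h3 : (3 : ℝ) ≤ (M u v : ℝ) := by exact_mod_cast h2
    have : 0 < Real.cos (Real.pi / M u v) := by
      apply Real.cos_pos_of_mem_Ioo
      constructor
      · have : 0 ≤ Real.pi / (M u v : ℝ) := by positivity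
        linarith [Real.pi_pos]
      · have : Real.pi / (M u v : ℝ) ≤ Real.pi / 3 := div_le_div_of_nonneg_left Real.pi_pos.le (by norm_num) h3
        linarith [Real.pi_pos]
    linarith

/-- the form -/
noncomputable def BB (x y : V → ℝ) : ℝ := ∑ u, ∑ v, x u * y v * bf M u v

lemma BB_symm (x y : V → ℝ) : BB M x y = BB M y x := by
  unfold BB
  rw [Finset.sum_comm]
  refine Finset.sum_congr rfl fun u _ => Finset.sum_congr rfl fun v _ => ?_
  rw [bf_symm M v u]
  ring

lemma BB_sub_smul (x y z : V → ℝ) (a : ℝ) : BB M (x - a • y) z = BB M x z - a * BB M y z := by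
  unfold BB
  rw [Finset.mul_sum, ← Finset.sum_sub_distrib]
  refine Finset.sum_congr rfl fun u _ => ?_
  rw [Finset.mul_sum, ← Finset.sum_sub_distrib]
  refine Finset.sum_congr rfl fun v _ => ?_
  simp only [Pi.sub_apply, Pi.smul_apply, smul_eq_mul]
  ring

lemma BB_sub_smul' (x y z : V → ℝ) (a : ℝ) : BB M z (x - a • y) = BB M z x - a * BB M z y := by
  rw [BB_symm, BB_sub_smul, BB_symm M x, BB_symm M y]

lemma BB_single (x : V → ℝ) (v : V) : BB M x (Pi.single v 1) = ∑ u, x u * bf M u v := by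
  unfold BB
  refine Finset.sum_congr rfl fun u _ => ?_
  rw [Finset.sum_eq_single v]
  · simp
  · intro w _ hw
    simp [hw]
  · simp

lemma BB_single_single (v : V) : BB M (Pi.single v 1) (Pi.single v 1) = 1 := by
  rw [BB_single, Finset.sum_eq_single v]
  · simp [bf_self]
  · intro w _ hw
    simp [hw]
  · simp

variable {M}

lemma rep_apply {ρ : M.Group →* ((V → ℝ) ≃ₗ[ℝ] (V → ℝ))} (hρ : IsRep M ρ) (v : V) (x : V → ℝ) :
    ρ (M.toCoxeterSystem.simple v) x = x - (2 * BB M x (Pi.single v 1)) • Pi.single v 1 := by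
  rw [hρ v x, BB_single]
  rfl

lemma rep_inv {ρ : M.Group →* ((V → ℝ) ≃ₗ[ℝ] (V → ℝ))} (hρ : IsRep M ρ) (v : V) (x y : V → ℝ) :
    BB M (ρ (M.toCoxeterSystem.simple v) x) (ρ (M.toCoxeterSystem.simple v) y) = BB M x y := by
  rw [rep_apply hρ, rep_apply hρ, BB_sub_smul, BB_sub_smul', BB_sub_smul', BB_single_single, BB_symm M (Pi.single v 1) y]
  ring

lemma rep_rep {ρ : M.Group →* ((V → ℝ) ≃ₗ[ℝ] (V → ℝ))} (v : V) (x : V → ℝ) :
    ρ (M.toCoxeterSystem.simple v) (ρ (M.toCoxeterSystem.simple v) x) = x := by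
  have : ρ (M.toCoxeterSystem.simple v) * ρ (M.toCoxeterSystem.simple v) = 1 := by
    rw [← map_mul, M.toCoxeterSystem.simple_mul_simple_self, map_one]
  have h2 := congrArg (fun f : (V → ℝ) ≃ₗ[ℝ] (V → ℝ) => f x) this
  exact h2

lemma step {ρ : M.Group →* ((V → ℝ) ≃ₗ[ℝ] (V → ℝ))} (hρ : IsRep M ρ) (T : Finset V) (hT : Irr M T) (n : ℕ) :
    n + 1 ≤ T.card → ∃ A ⊆ T, A.card = n + 1 ∧ ∃ (t : M.Group) (β : V → ℝ),
      M.toCoxeterSystem.IsReflection t ∧ t ∈ par M A ∧ (∀ u ∈ A, 0 < β u) ∧ (∀ u, u ∉ A → β u = 0) ∧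
      BB M β β = 1 ∧ ∀ x, ρ t x = x - (2 * BB M x β) • β := by
  induction n with
  | zero =>
    intro _
    obtain ⟨a, ha⟩ := hT.1
    refine ⟨{a}, by simpa using ha, by simp, M.toCoxeterSystem.simple a, Pi.single a 1,
      M.toCoxeterSystem.isReflection_simple a, ?_, ?_, ?_, BB_single_single M a, rep_apply hρ a⟩
    · exact Subgroup.subset_closure ⟨a, by simp, rfl⟩
    · intro u hu
      rw [Finset.mem_singleton] at hu
      subst hu
      simp
    · intro u hu
      rw [Finset.mem_singleton] at hu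
      simp [hu]
  | succ n ih =>
    intro hn
    obtain ⟨A, hA, hAc, t, β, ht, htA, hpos, hzero, hBB, hrt⟩ := ih (by omega)
    have hne : A ≠ T := by
      intro h
      rw [← h] at hn
      omega
    have hAn : A.Nonempty := Finset.card_pos.mp (by omega)
    obtain ⟨a, ha, b, hb, hab⟩ := hT.2 A hA hAn hne
    rw [Finset.mem_sdiff] at hb
    have hneab : a ≠ b := fun h => hb.2 (h ▸ ha)
    have hlt : BB M β (Pi.single b 1) < 0 := by
      rw [BB_single]
      apply Finset.sum_neg'
      · intro u _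
        by_cases hu : u ∈ A
        · exact mul_nonpos_of_nonneg_of_nonpos (hpos u hu).le (bf_nonpos M u b fun h => hb.2 (h ▸ hu))
        · rw [hzero u hu, zero_mul]
      · exact ⟨a, Finset.mem_univ a, mul_neg_of_pos_of_neg (hpos a ha) (bf_neg M a b hneab hab)⟩
    refine ⟨insert b A, Finset.insert_subset hb.1 hA, by rw [Finset.card_insert_of_notMem hb.2, hAc],
      M.toCoxeterSystem.simple b * t * M.toCoxeterSystem.simple b, ρ (M.toCoxeterSystem.simple b) β, ?_, ?_, ?_, ?_, ?_, ?_⟩
    · have := ht.conj (M.toCoxeterSystem.simple b)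
      rwa [M.toCoxeterSystem.inv_simple] at this
    · have h1 : M.toCoxeterSystem.simple b ∈ par M (insert b A) :=
        Subgroup.subset_closure ⟨b, by simp, rfl⟩
      have h2 : t ∈ par M (insert b A) :=
        Subgroup.closure_mono (Set.image_mono (by simp)) htA
      exact mul_mem (mul_mem h1 h2) h1
    · intro u hu
      rw [rep_apply hρ]
      simp only [Pi.sub_apply, Pi.smul_apply, smul_eq_mul]
      by_cases hub : u = b
      · subst hub
        rw [hzero u hb.2]
        simp only [Pi.single_eq_same]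
        linarith
      · rw [Pi.single_eq_of_ne hub, mul_zero, sub_zero]
        rw [Finset.mem_insert] at hu
        exact hpos u (hu.resolve_left hub)
    · intro u hu
      rw [Finset.mem_insert, not_or] at hu
      rw [rep_apply hρ]
      simp only [Pi.sub_apply, Pi.smul_apply, smul_eq_mul]
      rw [Pi.single_eq_of_ne hu.1, mul_zero, sub_zero, hzero u hu.2]
    · rw [rep_inv hρ, hBB]
    · intro x
      have h1 : ρ (M.toCoxeterSystem.simple b * t * M.toCoxeterSystem.simple b) x =
          ρ (M.toCoxeterSystem.simple b) (ρ t (ρ (M.toCoxeterSystem.simple b) x)) := by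
        rw [map_mul, map_mul]
        rfl
      rw [h1, hrt, map_sub, map_smul, rep_rep]
      have h2 : BB M (ρ (M.toCoxeterSystem.simple b) x) β = BB M x (ρ (M.toCoxeterSystem.simple b) β) := by
        have := rep_inv hρ b x (ρ (M.toCoxeterSystem.simple b) β)
        rwa [rep_rep] at this
      rw [h2]

lemma supp {ρ : M.Group →* ((V → ℝ) ≃ₗ[ℝ] (V → ℝ))} (hρ : IsRep M ρ) (S : Finset V) (v : V) (hv : v ∉ S)
    (t : M.Group) (ht : t ∈ par M S) : ∀ x, (ρ t x) v = x v := by
  refine Subgroup.closure_induction (p := fun t _ => ∀ x, (ρ t x) v = x v) ?_ ?_ ?_ ?_ ht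
  · rintro _ ⟨s, hs, rfl⟩ x
    have hsv : v ≠ s := fun h => hv (h ▸ hs)
    rw [rep_apply hρ]
    simp [Pi.single_eq_of_ne hsv]
  · intro x
    rw [map_one]
    rfl
  · intro a b _ _ ha hb x
    rw [map_mul]
    exact (ha (ρ b x)).trans (hb x)
  · intro a _ ha x
    have h1 := ha (ρ a⁻¹ x)
    have h2 : ρ a (ρ a⁻¹ x) = x := by
      have : ρ a * ρ a⁻¹ = 1 := by rw [← map_mul, mul_inv_cancel, map_one]
      exact congrArg (fun f : (V → ℝ) ≃ₗ[ℝ] (V → ℝ) => f x) this
    rw [h2] at h1
    exact h1.symm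

end Pool.Agent.H56T.GA.FSR

namespace Pool.Agent.H56T.GA

open FSR

theorem t_FSR : S_FSR := by
  intro hW V _ _ M T hT
  obtain ⟨ρ, hρ⟩ := hW V M
  have hc : 0 < T.card := Finset.card_pos.mpr hT.1
  obtain ⟨A, hA, hAc, t, β, ht, htA, hpos, hzero, hBB, hrt⟩ := step hρ T hT (T.card - 1) (by omega)
  have hAT : A = T := Finset.eq_of_subset_of_card_le hA (by omega)
  subst hAT
  refine ⟨t, ht, htA, fun S hS v hv => ?_⟩
  by_contra hvS
  have h1 := supp hρ S v hvS t hS β
  rw [hrt, hBB] at h1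
  have h2 := hpos v hv
  simp only [Pi.sub_apply, Pi.smul_apply, smul_eq_mul] at h1
  linarith

end Pool.Agent.H56T.GA
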