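import Pool.Agent.H56T.Stm5
import Pool.Agent.H56T.LCOM

set_option autoImplicit false
set_option linter.unusedSectionVars false

/-!
# Garside elements commute (piece GCM of project GA)
-/

namespace Pool.Agent.H56T.GA

open Pool.Agent.W907.SG Pool.Agent.H56T.LR Finset

namespace GCM

theorem comm_closure {Γ : Type} [Group Γ] (A : Set Γ) (x y : Γ) (hx : x ∈ Subgroup.closure A)
    (h : ∀ a ∈ A, Commute a y) : Commute x y := by
  have h1 : Subgroup.closure A ≤ Subgroup.centralizer {y} := by
    rw [Subgroup.closure_le]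
    intro a ha
    rw [SetLike.mem_coe, Subgroup.mem_centralizer_iff]
    rintro g rfl
    exact (h a ha).symm
  have h2 := h1 hx
  rw [Subgroup.mem_centralizer_iff] at h2
  exact (h2 y rfl).symm

variable {V : Type} (M : CoxeterMatrix V)

theorem wl_lng (hL : Lngs) (T : Finset V) (hT : Sphl M T) : IsLng M.toCoxeterSystem (T : Set V) (wl M T) := by
  have h := (hL V M.Group M M.toCoxeterSystem).ex (T : Set V) hT
  unfold wl
  rw [dif_pos h]
  exact h.choose_spec

theorem zz_comm [Fintype V] [DecidableEq V] (hP : S_PAR) (hL : Lngs) (hF : Lfts) (T : Finset V) (hT : Sphl M T)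
    (s : V) (hs : s ∈ T) : Commute (sig M s) (zzG M T) := by
  have hw := wl_lng M hL T hT
  have L := hL V M.Group M M.toCoxeterSystem
  have P := hP V M.Group M M.toCoxeterSystem
  have F := hF V M
  have hsq := L.sq _ _ hw
  have hinv : (wl M T)⁻¹ = wl M T := inv_eq_of_mul_eq_one_left hsq
  -- conjugation by the longest element
  have key : ∀ s ∈ T, ∃ s' ∈ T, wl M T * M.toCoxeterSystem.simple s * wl M T = M.toCoxeterSystem.simple s' ∧
      lft M (wl M T) * sig M s = sig M s' * lft M (wl M T) := by
    intro s hs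
    have hsm : M.toCoxeterSystem.simple s ∈ parC M.toCoxeterSystem (T : Set V) :=
      Subgroup.subset_closure ⟨s, hs, rfl⟩
    have h1 := L.len _ _ _ hw (mul_mem hw.mem hsm)
    rw [← mul_assoc, hsq, one_mul, CoxeterSystem.length_simple] at h1
    have h2 := L.len _ _ _ hw (mul_mem hsm hw.mem)
    have h3 : M.toCoxeterSystem.length (M.toCoxeterSystem.simple s * wl M T) =
        M.toCoxeterSystem.length (wl M T * M.toCoxeterSystem.simple s) := by
      rw [← CoxeterSystem.length_inv, mul_inv_rev, hinv, CoxeterSystem.inv_simple]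
    rw [h3, ← mul_assoc] at h2
    have h4 : M.toCoxeterSystem.length (wl M T * M.toCoxeterSystem.simple s * wl M T) = 1 := by omega
    obtain ⟨ω, hω1, hω2, hω3⟩ := P.word _ _ (mul_mem (mul_mem hw.mem hsm) hw.mem)
    have h5 : ω.length = 1 := by
      rw [← hω1.eq, ← hω3, h4]
    obtain ⟨s', rfl⟩ := List.length_eq_one_iff.mp h5
    rw [CoxeterSystem.wordProd_singleton] at hω3
    refine ⟨s', hω2 s' (List.mem_singleton_self s'), hω3, ?_⟩
    have h6 : wl M T * M.toCoxeterSystem.simple s = M.toCoxeterSystem.simple s' * wl M T := by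
      rw [← hω3, mul_assoc, hsq, mul_one]
    have h7 : lft M (wl M T) = lft M (wl M T * M.toCoxeterSystem.simple s) * sig M s := by
      have h8 := F.mul (wl M T * M.toCoxeterSystem.simple s) (M.toCoxeterSystem.simple s) (by
        rw [CoxeterSystem.simple_mul_simple_cancel_right, CoxeterSystem.length_simple]
        omega)
      rw [CoxeterSystem.simple_mul_simple_cancel_right, F.simple] at h8
      exact h8
    have h9 : lft M (wl M T) = sig M s' * lft M (wl M T * M.toCoxeterSystem.simple s) := by
      have h8 := F.mul (M.toCoxeterSystem.simple s') (wl M T * M.toCoxeterSystem.simple s) (by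
        rw [h6, CoxeterSystem.simple_mul_simple_cancel_left, ← h6, CoxeterSystem.length_simple]
        omega)
      rw [F.simple, h6, CoxeterSystem.simple_mul_simple_cancel_left, ← h6] at h8
      exact h8
    calc lft M (wl M T) * sig M s = sig M s' * lft M (wl M T * M.toCoxeterSystem.simple s) * sig M s := by rw [← h9]
      _ = sig M s' * (lft M (wl M T * M.toCoxeterSystem.simple s) * sig M s) := mul_assoc _ _ _
      _ = sig M s' * lft M (wl M T) := by rw [← h7]
  obtain ⟨s', hs', h1, h2⟩ := key s hs
  obtain ⟨s'', hs'', h3, h4⟩ := key s' hs'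
  have h5 : M.toCoxeterSystem.simple s'' = M.toCoxeterSystem.simple s := by
    rw [← h3, ← h1]
    simp only [mul_assoc]
    rw [hsq, mul_one, ← mul_assoc, hsq, one_mul]
  have h6 : sig M s'' = sig M s := by
    rw [← (hF V M).simple, ← (hF V M).simple, h5]
  rw [h6] at h4
  show sig M s * (lft M (wl M T) * lft M (wl M T)) = lft M (wl M T) * lft M (wl M T) * sig M s
  rw [← mul_assoc, ← h4, mul_assoc, ← h2, mul_assoc]

theorem zz_mem [Fintype V] [DecidableEq V] (hL : Lngs) (hF : Lfts) (T : Finset V) (hT : Sphl M T) :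
    zzG M T ∈ Subgroup.closure (sig M '' (T : Set V)) := by
  have h := (hF V M).par T (wl M T) (wl_lng M hL T hT).mem
  exact mul_mem h h

end GCM

open GCM in
theorem t_GCM : S_GCM := by
  intro hP hL hF V _ _ M S T hS hT h
  have key : ∀ S T : Finset V, Sphl M S → Sphl M T → S ⊆ T → Commute (zzG M S) (zzG M T) := by
    intro S T hS hT h
    refine comm_closure _ _ _ (zz_mem M hL hF S hS) ?_
    rintro _ ⟨s, hs, rfl⟩
    exact zz_comm M hP hL hF T hT s (h hs)
  rcases h with h | h | h
  · exact key S T hS hT h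
  · exact (key T S hT hS h).symm
  · refine comm_closure _ _ _ (zz_mem M hL hF S hS) ?_
    rintro _ ⟨s, hs, rfl⟩
    refine (comm_closure _ _ _ (zz_mem M hL hF T hT) ?_).symm
    rintro _ ⟨t, ht, rfl⟩
    exact (LCOM.com M s t (h s hs t ht)).symm

end Pool.Agent.H56T.GA
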