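import Pool.Agent.H56T.Stm5

/-!
# Piece GHM of project GA: dual homomorphisms of the pure Artin group
-/

set_option autoImplicit false

namespace Pool.Agent.H56T.GA.GHM

open Pool.Agent.W907.SG Pool.Agent.H56T.LR Finset Pool.Agent.H56T.GA Pool.Agent.Helper376.LC

section cox

variable {B W : Type} [Group W] {M : CoxeterMatrix B} (cs : CoxeterSystem M W)

/-- the inversions of the elements of a parabolic subgroup are in this subgroup -/
lemma eta_par (J : Set B) (x : W) (hx : x ∈ parC cs J) : ∀ t : W, eta cs x t ≠ 0 → t ∈ parC cs J := by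
  refine Subgroup.closure_induction (p := fun x _ => ∀ t : W, eta cs x t ≠ 0 → t ∈ parC cs J) ?_ ?_ ?_ ?_ hx
  · rintro _ ⟨i, hi, rfl⟩ t ht
    rw [eta_simple] at ht
    have : t = cs.simple i := by
      by_contra h
      exact ht (if_neg h)
    rw [this]
    exact Subgroup.subset_closure ⟨i, hi, rfl⟩
  · intro t ht
    exact absurd (eta_one cs t) ht
  · intro x y hx hy ihx ihy t ht
    rw [eta_mul] at ht
    by_cases h : eta cs y t = 0
    · rw [h, zero_add] at ht
      have h1 := ihx _ ht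
      have h2 : t = y⁻¹ * (y * t * y⁻¹) * y := by group
      rw [h2]
      exact mul_mem (mul_mem (inv_mem hy) h1) hy
    · exact ihy t h
  · intro x hx ih t ht
    have h0 := eta_mul cs x x⁻¹ t
    rw [mul_inv_cancel, eta_one, inv_inv] at h0
    have h1 : eta cs x (x⁻¹ * t * x) ≠ 0 := by
      intro h
      rw [h, add_zero] at h0
      exact ht h0.symm
    have h2 := ih _ h1
    have h3 : t = x * (x⁻¹ * t * x) * x⁻¹ := by group
    rw [h3]
    exact mul_mem (mul_mem hx h2) (inv_mem hx)

/-- the left inversions of the longest element of `W_J` are the reflections in `W_J` -/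
lemma inv_lng (hL : LNGs cs) (J : Set B) (w : W) (hw : IsLng cs J w) (t : W) (ht : cs.IsReflection t) :
    cs.IsLeftInversion w t ↔ t ∈ parC cs J := by
  constructor
  · intro h
    have h1 : eta cs w⁻¹ t = 1 := (mem_Ninv_iff cs w t).mp h
    refine eta_par cs J w⁻¹ (inv_mem hw.mem) t ?_
    rw [h1]
    exact one_ne_zero
  · intro h
    refine ⟨ht, ?_⟩
    have hsq := hL.sq J w hw
    have hwi : w⁻¹ = w := inv_eq_of_mul_eq_one_left hsq
    have h1 : cs.length (t * w) = cs.length (w * t) := by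
      rw [← cs.length_inv (t * w), mul_inv_rev, hwi, ht.inv]
    have h2 := hL.len J w t hw h
    have h3 : cs.length t ≠ 0 := by
      intro h0
      have := ht.odd_length
      rw [h0] at this
      exact absurd this (by decide)
    omega

end cox

section main

variable {V : Type} [Fintype V] [DecidableEq V] {M : CoxeterMatrix V}

lemma wl_lng (hL : Lngs) (T : Finset V) (hT : Sphl M T) : IsLng M.toCoxeterSystem (T : Set V) (wl M T) := by
  have h : ∃ v, IsLng M.toCoxeterSystem (T : Set V) v := (hL V M.Group M M.toCoxeterSystem).ex T hT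
  unfold wl
  rw [dif_pos h]
  exact h.choose_spec

variable {π : ArtG M →* M.Group} (hπ : ∀ v, π (sig M v) = M.toCoxeterSystem.simple v)

include hπ in
lemma zz_ker (hL : Lngs) (hF : Lfts) (T : Finset V) (hT : Sphl M T) : zzG M T ∈ π.ker := by
  rw [MonoidHom.mem_ker]
  unfold zzG
  rw [map_mul, (hF V M).prj π hπ]
  exact (hL V M.Group M M.toCoxeterSystem).sq _ _ (wl_lng hL T hT)

include hπ in
lemma C_zz (hL : Lngs) (hF : Lfts) (hD : S_CRD) {C : ArtG M → M.Group → ℤ} (hC : IsCoc M π C) (T : Finset V)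
    (hT : Sphl M T) (t : M.Group) (ht : M.toCoxeterSystem.IsReflection t) :
    (t ∈ par M T → C (zzG M T) t = 2) ∧ (t ∉ par M T → C (zzG M T) t = 0) := by
  have hw := wl_lng hL T hT
  set w := wl M T with hwdef
  have hLM := hL V M.Group M M.toCoxeterSystem
  have h1 : C (zzG M T) t = C (lft M w) t + C (lft M w) (w⁻¹ * t * w) := by
    unfold zzG
    rw [hC.mul, (hF V M).prj π hπ]
  have ht' : M.toCoxeterSystem.IsReflection (w⁻¹ * t * w) := by
    have := ht.conj w⁻¹
    rwa [inv_inv] at this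
  have hmem : w⁻¹ * t * w ∈ par M T ↔ t ∈ par M T := by
    constructor
    · intro h
      have h3 : t = w * (w⁻¹ * t * w) * w⁻¹ := by group
      rw [h3]
      exact mul_mem (mul_mem hw.mem h) (inv_mem hw.mem)
    · intro h
      exact mul_mem (mul_mem (inv_mem hw.mem) h) hw.mem
  constructor
  · intro h
    rw [h1, (hD V M π C hπ hC w t).1 ((inv_lng _ hLM T w hw t ht).mpr h),
      (hD V M π C hπ hC w _).1 ((inv_lng _ hLM T w hw _ ht').mpr (hmem.mpr h))]
    norm_num
  · intro h
    rw [h1, (hD V M π C hπ hC w t).2 (fun h' => h ((inv_lng _ hLM T w hw t ht).mp h')),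
      (hD V M π C hπ hC w _).2 (fun h' => h (hmem.mp ((inv_lng _ hLM T w hw _ ht').mp h')))]
    norm_num

/-- the value of the cocycle as a homomorphism on the kernel -/
noncomputable def kh {C : ArtG M → M.Group → ℤ} (hC : IsCoc M π C) (t : M.Group) : π.ker →* Multiplicative ℤ :=
  MonoidHom.mk' (fun g => Multiplicative.ofAdd (C g.1 t)) (by
    intro g h
    rw [← ofAdd_add]
    congr 1
    have h1 := hC.mul g.1 h.1 t
    rw [(MonoidHom.mem_ker).mp g.2, inv_one, one_mul, mul_one] at h1
    exact h1)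

end main

end Pool.Agent.H56T.GA.GHM

namespace Pool.Agent.H56T.GA

open GHM Pool.Agent.W907.SG Pool.Agent.H56T.LR

theorem t_GHM : S_GHM := by
  intro hP hL hF hCOC hD hW hFS hM V _ _ M _ π hπ
  classical
  obtain ⟨C, hC⟩ := hCOC V M π hπ
  have hfs := fun x : II M => hFS hW V M x.1 x.2.2
  choose tt ht1 ht2 ht3 using hfs
  obtain ⟨m, hm⟩ := hM (II M)
  refine ⟨fun x => zz_ker hπ hL hF x.1 x.2.1, fun S => ∏ R : II M, (kh hC (tt R)) ^ (m S R), ?_⟩
  intro x y
  have h1 : Multiplicative.toAdd ((∏ R : II M, (kh hC (tt R)) ^ (m x R)) ⟨zzG M y.1, zz_ker hπ hL hF y.1 y.2.1⟩) =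
      ∑ R : II M, m x R * C (zzG M y.1) (tt R) := by
    rw [MonoidHom.finsetProd_apply, toAdd_prod]
    refine Finset.sum_congr rfl fun R _ => ?_
    have : ((kh hC (tt R)) ^ (m x R)) ⟨zzG M y.1, zz_ker hπ hL hF y.1 y.2.1⟩ =
        ((kh hC (tt R)) ⟨zzG M y.1, zz_ker hπ hL hF y.1 y.2.1⟩) ^ (m x R) := rfl
    rw [this, toAdd_zpow]
    rfl
  rw [h1]
  have h2 : ∀ R : II M, C (zzG M y.1) (tt R) = 2 * (if R ≤ y then 1 else 0) := by
    intro R
    have h3 := C_zz hπ hL hF hD hC y.1 y.2.1 (tt R) (ht1 R)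
    by_cases h : R ≤ y
    · rw [if_pos h, mul_one]
      refine h3.1 ?_
      have h4 : R.1 ⊆ y.1 := h
      exact Subgroup.closure_mono (Set.image_mono (by exact_mod_cast h4)) (ht2 R)
    · rw [if_neg h, mul_zero]
      refine h3.2 fun h' => h ?_
      exact ht3 R y.1 h'
  have h3 : ∑ R : II M, m x R * C (zzG M y.1) (tt R) = 2 * ∑ R : II M, m x R * (if R ≤ y then 1 else 0) := by
    rw [Finset.mul_sum]
    refine Finset.sum_congr rfl fun R _ => ?_
    rw [h2 R]
    ring
  have h4 : ∑ R : II M, m x R * (if R ≤ y then 1 else 0) = if x = y then 1 else 0 := by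
    convert hm x y
  rw [h3, h4]
  by_cases h : x = y
  · rw [if_pos h, if_pos h.symm, mul_one]
  · rw [if_neg h, if_neg (fun h' => h h'.symm), mul_zero]

end Pool.Agent.H56T.GA
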