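import Pool.Agent.H56T.Stm5

/-!
# Units attached to the spherical subsets (piece GUN of project GA)
-/

set_option autoImplicit false

namespace Pool.Agent.H56T.GA

open Pool.Agent.W907.SG Pool.Agent.H56T.LR Finset

namespace GUN

section sph

variable {V : Type} (M : CoxeterMatrix V)

theorem par_mono {S T : Finset V} (h : S ⊆ T) : par M S ≤ par M T :=
  Subgroup.closure_mono (Set.image_mono (by exact_mod_cast h))

theorem sphl_mono {S T : Finset V} (h : S ⊆ T) (hT : Sphl M T) : Sphl M S :=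
  Set.Finite.subset hT (par_mono M h)

theorem sphl_empty : Sphl M ∅ := by
  have : par M ∅ = ⊥ := by
    unfold par
    rw [Finset.coe_empty, Set.image_empty, Subgroup.closure_empty]
  unfold Sphl
  rw [this, Subgroup.coe_bot]
  exact Set.finite_singleton _

theorem isLng_wl (hL : LNGs M.toCoxeterSystem) {T : Finset V} (hT : Sphl M T) :
    IsLng M.toCoxeterSystem (T : Set V) (wl M T) := by
  have h := hL.ex (T : Set V) hT
  unfold wl
  rw [dif_pos h]
  exact h.choose_spec

theorem one_le_length (hL : LNGs M.toCoxeterSystem) {T : Finset V} (hT : Sphl M T) (hn : T.Nonempty) :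
    1 ≤ M.toCoxeterSystem.length (wl M T) := by
  obtain ⟨s, hs⟩ := hn
  have h1 : M.toCoxeterSystem.length (wl M T * M.toCoxeterSystem.simple s) <
    M.toCoxeterSystem.length (wl M T) := (isLng_wl M hL hT).desc s hs
  omega

end sph

section ring

variable {R : Type} [Ring R]

theorem unit_left {a b : R} (hb : IsUnit b) (hab : IsUnit (a * b)) : IsUnit a := by
  obtain ⟨u, hu⟩ := hb
  obtain ⟨w, hw⟩ := hab
  have : a = w * u⁻¹ := by
    rw [hw, ← hu, Units.mul_inv_cancel_right]
  rw [this]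
  exact w.isUnit.mul (Units.isUnit _)

theorem unit_of_comm {a q u : R} (hu : IsUnit u) (h1 : a * q = u) (h2 : q * a = u) : IsUnit a := by
  obtain ⟨w, rfl⟩ := hu
  rw [isUnit_iff_exists_and_exists]
  refine ⟨⟨q * ↑w⁻¹, ?_⟩, ⟨↑w⁻¹ * q, ?_⟩⟩
  · rw [← mul_assoc, h1, Units.mul_inv]
  · rw [mul_assoc, h2, Units.inv_mul]

theorem unit_pm {D : R} (h1 : IsUnit (1 - D)) (h2 : IsUnit (1 - D * D)) {a b : ℤ}
    (ha : a = 1 ∨ a = -1) (hb : b = 1 ∨ b = -1) : IsUnit (a • D - b • (1 : R)) := by
  have h3 : IsUnit (1 + D) := by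
    refine unit_left h1 ?_
    have : (1 + D) * (1 - D) = 1 - D * D := by noncomm_ring
    rw [this]
    exact h2
  rcases ha with rfl | rfl <;> rcases hb with rfl | rfl
  · have : (1 : ℤ) • D - (1 : ℤ) • (1 : R) = -(1 - D) := by rw [one_smul, one_smul]; abel
    rw [this]; exact h1.neg
  · have : (1 : ℤ) • D - (-1 : ℤ) • (1 : R) = 1 + D := by rw [one_smul, neg_smul, one_smul]; abel
    rw [this]; exact h3
  · have : (-1 : ℤ) • D - (1 : ℤ) • (1 : R) = -(1 + D) := by rw [one_smul, neg_smul, one_smul]; abel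
    rw [this]; exact h3.neg
  · have : (-1 : ℤ) • D - (-1 : ℤ) • (1 : R) = 1 - D := by rw [neg_smul, neg_smul, one_smul, one_smul]; abel
    rw [this]; exact h1

end ring

theorem ev_single {Γ R : Type} [Group Γ] [Ring R] (c : Γ →* R) (g : Γ) :
    V7N.evM c (MonoidAlgebra.single g (1 : ℤ)) = c g := by
  show MonoidAlgebra.lift ℤ R Γ c (MonoidAlgebra.single g (1 : ℤ)) = c g
  rw [MonoidAlgebra.lift_single, one_smul]

section main

variable {V : Type} [DecidableEq V] (M : CoxeterMatrix V) {R : Type} [Ring R] (c : ArtG M →* R)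

theorem unit_alpha (hL : LNGs M.toCoxeterSystem) (hF : LFTs M) (hH : THTs M)
    (hc : ∀ g : ArtG M, (∃ d : ArtG M →* Multiplicative ℤ, d g ≠ 1) → IsUnit (1 - c g)) :
    ∀ T : Finset V, Sphl M T → IsUnit (V7N.evM c (tht M T ∅)) := by
  intro T
  induction T using Finset.strongInduction with
  | H T ih =>
    intro hT
    rcases T.eq_empty_or_nonempty with rfl | hn
    · rw [hH.one ∅ hT, map_one]
      exact isUnit_one
    have hu : ∀ S ∈ T.powerset.erase T, S ⊆ T ∧ IsUnit (V7N.evM c (tht M S ∅)) := by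
      intro S hS
      rw [mem_erase, mem_powerset] at hS
      exact ⟨hS.2, ih S (Finset.ssubset_iff_subset_ne.mpr ⟨hS.2, hS.1⟩) (sphl_mono M hS.2 hT)⟩
    -- the image of the lift of the longest element
    obtain ⟨d, hd1, hd2⟩ := hF.deg
    have hl := one_le_length M hL hT hn
    have hdw : d (lft M (wl M T)) ≠ 1 := by
      rw [hd2]
      intro h
      have h' : ((M.toCoxeterSystem.length (wl M T) : ℕ) : ℤ) = 0 := h
      omega
    have h1 : IsUnit (1 - c (lft M (wl M T))) := hc _ ⟨d, hdw⟩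
    have h2 : IsUnit (1 - c (lft M (wl M T)) * c (lft M (wl M T))) := by
      rw [← map_mul]
      refine hc _ ⟨d, ?_⟩
      rw [map_mul, hd2]
      intro h
      have h' : ((M.toCoxeterSystem.length (wl M T) : ℕ) : ℤ) +
        ((M.toCoxeterSystem.length (wl M T) : ℕ) : ℤ) = 0 := h
      omega
    have hT' : T ∈ T.powerset := mem_powerset_self T
    have h3 : IsUnit (((-1 : ℤ) ^ M.toCoxeterSystem.length (wl M T)) • c (lft M (wl M T)) -
        ((-1 : ℤ) ^ T.card) • (1 : R)) :=
      unit_pm h1 h2 (neg_one_pow_eq_or ℤ _) (neg_one_pow_eq_or ℤ _)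
    obtain ⟨q, hq1, hq2, hq3⟩ := hH.left
    refine unit_of_comm h3 (q := ∑ S ∈ T.powerset.erase T,
      ((-1 : ℤ) ^ S.card) • Ring.inverse (V7N.evM c (tht M S ∅))) ?_ ?_
    · have h4 := congrArg (V7N.evM c) (hH.sum T hT)
      rw [map_sum, map_zsmul, ev_single, ← Finset.add_sum_erase _ _ hT', map_zsmul, hH.one T hT,
        map_one] at h4
      rw [← h4, add_sub_cancel_left, Finset.mul_sum]
      refine Finset.sum_congr rfl fun S hS => ?_
      rw [map_zsmul, mul_smul_comm]
      congr 1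
      rw [hH.right S T (hu S hS).1 hT, map_mul, mul_assoc, Ring.mul_inverse_cancel _ (hu S hS).2,
        mul_one]
    · have h4 := congrArg (V7N.evM c) (hq3 T hT)
      rw [map_sum, map_zsmul, ev_single, ← Finset.add_sum_erase _ _ hT', map_zsmul, hq2 T hT,
        map_one] at h4
      rw [← h4, add_sub_cancel_left, Finset.sum_mul]
      refine Finset.sum_congr rfl fun S hS => ?_
      rw [map_zsmul, smul_mul_assoc]
      congr 1
      rw [hq1 S T (hu S hS).1 hT, map_mul, ← mul_assoc, Ring.inverse_mul_cancel _ (hu S hS).2,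
        one_mul]

end main

end GUN

open GUN in
theorem t_GUN : S_GUN := by
  intro hL hF hH V _ _ M R _ c hc
  refine ⟨fun T => V7N.evM c (tht M T ∅),
    unit_alpha M c (hL V M.Group M M.toCoxeterSystem) (hF V M) (hH V M) hc, ?_⟩
  intro T v _ hT
  show V7N.evM c (tht M (insert v T) T) * V7N.evM c (tht M T ∅) = V7N.evM c (tht M (insert v T) ∅)
  rw [(hH V M).right T (insert v T) (Finset.subset_insert _ _) hT, map_mul]

end Pool.Agent.H56T.GA
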