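import Pool.Agent.H56T.Stm5

/-!
# Project GA, piece LFT: the lifts of the elements of the Coxeter group to the Artin group
-/

set_option autoImplicit false

namespace Pool.Agent.H56T.GA

open Pool.Agent.W907.SG Pool.Agent.H56T.LR Finset

namespace LFT

theorem map_alt {A B : Type} [Monoid A] [Monoid B] (f : A →* B) (n : ℕ) :
    ∀ x y : A, f (alt x y n) = alt (f x) (f y) n := by
  induction n with
  | zero => intro x y; exact map_one f
  | succ n ih => intro x y; rw [alt, alt, map_mul, ih]

theorem alt_ofAdd (n : ℕ) : alt (Multiplicative.ofAdd (1 : ℤ)) (Multiplicative.ofAdd (1 : ℤ)) n =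
    Multiplicative.ofAdd (n : ℤ) := by
  induction n with
  | zero => rfl
  | succ n ih => rw [alt, ih, ← ofAdd_add, Nat.cast_succ]

section
variable {V : Type} (M : CoxeterMatrix V)

theorem sig_braid (u v : V) : alt (sig M u) (sig M v) (M u v) = alt (sig M v) (sig M u) (M u v) := by
  have h1 : (PresentedGroup.mk (artRel M)) (alt (FreeGroup.of u) (FreeGroup.of v) (M u v) *
      (alt (FreeGroup.of v) (FreeGroup.of u) (M u v))⁻¹) = 1 :=
    PresentedGroup.mk_eq_one_iff.mpr (Subgroup.subset_normalClosure ⟨u, v, rfl⟩)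
  rw [map_mul, map_inv, map_alt, map_alt] at h1
  exact mul_inv_eq_one.mp h1

theorem simple_alt (u v : V) (n : ℕ) :
    alt (M.toCoxeterSystem.simple v) (M.toCoxeterSystem.simple u) n =
      M.toCoxeterSystem.wordProd (CoxeterSystem.alternatingWord u v n) := by
  induction n generalizing u v with
  | zero => exact (M.toCoxeterSystem.wordProd_nil).symm
  | succ n ih =>
    rw [alt, ih, CoxeterSystem.alternatingWord, CoxeterSystem.wordProd_concat]

theorem simple_braid (u v : V) :
    alt (M.toCoxeterSystem.simple u) (M.toCoxeterSystem.simple v) (M u v) =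
      alt (M.toCoxeterSystem.simple v) (M.toCoxeterSystem.simple u) (M u v) := by
  rw [simple_alt, simple_alt]
  have h := M.toCoxeterSystem.wordProd_braidWord_eq u v
  rw [CoxeterSystem.braidWord, CoxeterSystem.braidWord, M.symmetric v u] at h
  exact h.symm

theorem exists_hom {G : Type} [Group G] (f : V → G)
    (h : ∀ u v, alt (f u) (f v) (M u v) = alt (f v) (f u) (M u v)) :
    ∃ π : ArtG M →* G, ∀ v, π (sig M v) = f v := by
  refine ⟨PresentedGroup.toGroup (f := f) ?_, fun v => PresentedGroup.toGroup.of _⟩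
  rintro r ⟨u, v, rfl⟩
  rw [map_mul, map_inv, map_alt, map_alt, FreeGroup.lift_apply_of, FreeGroup.lift_apply_of,
    mul_inv_eq_one]
  exact h u v

end

end LFT

open LFT in
theorem t_LFT : S_LFT := by
  intro hPAR hMat V _ _ M
  obtain ⟨cs, hcs⟩ : ∃ cs, cs = M.toCoxeterSystem := ⟨_, rfl⟩
  have hword : ∀ ω : List V, M.toCoxeterSystem.IsReduced ω →
      lft M (M.toCoxeterSystem.wordProd ω) = (ω.map (sig M)).prod := by
    intro ω hω
    have h1 := (M.toCoxeterSystem.exists_isReduced (M.toCoxeterSystem.wordProd ω)).choose_spec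
    exact hMat V M (ArtG M) (sig M) (sig_braid M) _ ω h1.1 hω h1.2.symm
  have hex := fun w => M.toCoxeterSystem.exists_isReduced w
  refine ⟨hword, ?_, ?_, ?_, ?_, ?_, ?_, ?_⟩
  · intro u v huv
    obtain ⟨ωu, hu, rfl⟩ := hex u
    obtain ⟨ωv, hv, rfl⟩ := hex v
    have h1 : M.toCoxeterSystem.IsReduced (ωu ++ ωv) := by
      unfold CoxeterSystem.IsReduced
      rw [CoxeterSystem.wordProd_append, huv, List.length_append, hu.eq, hv.eq]
    rw [← CoxeterSystem.wordProd_append, hword _ h1, hword _ hu, hword _ hv, List.map_append,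
      List.prod_append]
  · have h1 : M.toCoxeterSystem.IsReduced [] := by
      unfold CoxeterSystem.IsReduced
      rw [CoxeterSystem.wordProd_nil, CoxeterSystem.length_one, List.length_nil]
    have h2 := hword [] h1
    rw [CoxeterSystem.wordProd_nil] at h2
    rw [h2]
    rfl
  · intro v
    have h1 : M.toCoxeterSystem.IsReduced [v] := by
      unfold CoxeterSystem.IsReduced
      rw [CoxeterSystem.wordProd_singleton, CoxeterSystem.length_simple]
      rfl
    have h2 := hword [v] h1
    rw [CoxeterSystem.wordProd_singleton] at h2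
    rw [h2]
    simp
  · intro T w hw
    obtain ⟨ω, hω, hωT, rfl⟩ := (hPAR V M.Group M M.toCoxeterSystem).word (T : Set V) w hw
    rw [hword ω hω]
    refine Subgroup.list_prod_mem _ ?_
    intro x hx
    obtain ⟨i, hi, rfl⟩ := List.mem_map.mp hx
    exact Subgroup.subset_closure ⟨i, hωT i hi, rfl⟩
  · obtain ⟨d, hd⟩ := exists_hom M (fun _ => Multiplicative.ofAdd (1 : ℤ)) (fun u v => rfl)
    refine ⟨d, hd, fun w => ?_⟩
    obtain ⟨ω, hω, rfl⟩ := hex w
    rw [hword ω hω, hω.eq, map_list_prod, List.map_map]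
    have h1 : ω.map (⇑d ∘ sig M) = List.replicate ω.length (Multiplicative.ofAdd (1 : ℤ)) := by
      rw [List.eq_replicate_iff]
      refine ⟨by rw [List.length_map], fun b hb => ?_⟩
      obtain ⟨i, -, rfl⟩ := List.mem_map.mp hb
      exact hd i
    rw [h1, List.prod_replicate, ← ofAdd_nsmul, nsmul_one]
  · exact exists_hom M _ (simple_braid M)
  · intro π hπ w
    obtain ⟨ω, hω, rfl⟩ := hex w
    rw [hword ω hω, map_list_prod, List.map_map]
    congr 1
    exact List.map_congr_left fun i _ => hπ i

end Pool.Agent.H56T.GA
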