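import Pool.Agent.H56T.Stm5

/-!
# Longest elements of parabolic subgroups (piece LNG of project GA)
-/

set_option autoImplicit false

namespace Pool.Agent.H56T.GA

namespace LNG

variable {B W : Type} [Group W] {M : CoxeterMatrix B} {cs : CoxeterSystem M W}

theorem len_word (h : PARs cs) {J : Set B} {v : W} (hv : IsLng cs J v) :
    ∀ ω : List B, cs.IsReduced ω → (∀ i ∈ ω, i ∈ J) →
      cs.length (v * cs.wordProd ω) + ω.length = cs.length v := by
  intro ω
  induction ω with
  | nil => intro _ _; simp
  | cons s ω ih =>
    intro hr hJ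
    have hr' : cs.IsReduced ω := by simpa using hr.drop 1
    have h1 := ih hr' fun i hi => hJ i (List.mem_cons_of_mem _ hi)
    obtain ⟨α, hα', ha⟩ := cs.exists_isReduced (v * cs.wordProd ω)
    have hα : α.length = cs.length (v * cs.wordProd ω) := by rw [ha]; exact hα'.symm
    have hv' : v = cs.wordProd (α ++ ω.reverse) := by
      rw [cs.wordProd_append, ← ha, cs.wordProd_reverse, mul_inv_cancel_right]
    obtain ⟨j, hj, he⟩ := h.exch (α ++ ω.reverse) s (by
      rw [← hv']; exact hv.desc s (hJ s List.mem_cons_self))
    rw [← hv'] at he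
    have hx : cs.length (cs.wordProd (s :: ω)) = ω.length + 1 := hr
    have hge : cs.length v ≤ cs.length (v * cs.wordProd (s :: ω)) + (ω.length + 1) := by
      have := cs.length_mul_le (v * cs.wordProd (s :: ω)) (cs.wordProd (s :: ω))⁻¹
      rwa [mul_inv_cancel_right, cs.length_inv, hx] at this
    rw [List.length_append, List.length_reverse] at hj
    by_cases hjα : j < α.length
    · rw [List.eraseIdx_append_of_lt_length hjα, cs.wordProd_append, cs.wordProd_reverse] at he
      have h2 : v * cs.wordProd (s :: ω) = cs.wordProd (α.eraseIdx j) := by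
        rw [cs.wordProd_cons, ← mul_assoc, he, inv_mul_cancel_right]
      have h3 := cs.length_wordProd_le (α.eraseIdx j)
      rw [← h2, List.length_eraseIdx_of_lt hjα] at h3
      rw [List.length_cons]
      omega
    · exfalso
      rw [List.eraseIdx_append_of_length_le (not_lt.mp hjα), cs.wordProd_append, ← ha,
        mul_assoc v, mul_right_inj] at he
      have h2 : (cs.wordProd (s :: ω))⁻¹ = cs.wordProd (ω.reverse.eraseIdx (j - α.length)) := by
        rw [cs.wordProd_cons, mul_inv_rev, cs.inv_simple, he, inv_mul_cancel_left]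
      have h3 := cs.length_wordProd_le (ω.reverse.eraseIdx (j - α.length))
      rw [← h2, cs.length_inv, hx, List.length_eraseIdx_of_lt (by
        rw [List.length_reverse]; omega), List.length_reverse] at h3
      omega

theorem lngs (h : PARs cs) : LNGs cs := by
  have len : ∀ (J : Set B) (v x : W), IsLng cs J v → x ∈ parC cs J →
      cs.length (v * x) + cs.length x = cs.length v := by
    intro J v x hv hx
    obtain ⟨ω, h1, h2, rfl⟩ := h.word J x hx
    have h3 := len_word h hv ω h1 h2
    have h4 : cs.length (cs.wordProd ω) = ω.length := h1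
    rw [h4]
    exact h3
  refine ⟨len, ?_, ?_, ?_, ?_⟩
  · intro J hJ v hv
    have : Finite J := hJ
    refine ((List.finite_length_le J (cs.length v)).image
      fun l => cs.wordProd (l.map Subtype.val)).subset ?_
    intro x hx
    obtain ⟨ω, h1, h2, rfl⟩ := h.word J x hx
    have h3 := len_word h hv ω h1 h2
    refine ⟨ω.attachWith (· ∈ J) h2, ?_, ?_⟩
    · show (ω.attachWith (· ∈ J) h2).length ≤ _
      rw [List.length_attachWith]
      omega
    · show cs.wordProd ((ω.attachWith (· ∈ J) h2).map Subtype.val) = _
      rw [List.attachWith_map_subtype_val]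
  · intro J hJ
    obtain ⟨v, hv, hmax⟩ := Set.exists_max_image (parC cs J : Set W) cs.length hJ
      ⟨1, (parC cs J).one_mem⟩
    refine ⟨v, hv, fun s hs => ?_⟩
    have h1 : v * cs.simple s ∈ parC cs J :=
      (parC cs J).mul_mem hv (Subgroup.subset_closure ⟨s, hs, rfl⟩)
    have h2 := hmax _ h1
    have h3 := cs.length_mul_simple_ne v s
    show cs.length (v * cs.simple s) < cs.length v
    omega
  · intro J v hv
    have := len J v v hv hv.mem
    rw [← cs.length_eq_zero_iff]
    omega
  · intro J v v' hv hv'
    have h1 := len J v (v⁻¹ * v') hv ((parC cs J).mul_mem ((parC cs J).inv_mem hv.mem) hv'.mem)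
    have h2 := len J v' (v'⁻¹ * v) hv' ((parC cs J).mul_mem ((parC cs J).inv_mem hv'.mem) hv.mem)
    rw [mul_inv_cancel_left] at h1 h2
    have h3 : cs.length (v⁻¹ * v') = 0 := by omega
    rw [cs.length_eq_zero_iff, inv_mul_eq_one] at h3
    exact h3

end LNG

theorem t_LNG : S_LNG := fun h B W _ M cs => LNG.lngs (h B W M cs)

end Pool.Agent.H56T.GA
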