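import Pool.Agent.H56T.Stm5

/-!
# Project GA, piece MAT: Matsumoto's theorem
-/

set_option autoImplicit false

namespace Pool.Agent.H56T.GA

open Pool.Agent.H56T.LR CoxeterSystem

namespace MAT

section

variable {B W : Type} [Group W] {M : CoxeterMatrix B} (cs : CoxeterSystem M W)

theorem red_left {ω : List B} {s : B} (h : cs.IsReduced (ω ++ [s])) : cs.IsReduced ω := by
  have := h.take ω.length
  rwa [List.take_left] at this

/-- a reduced word does not end with a repeated letter -/
theorem not_red (ω : List B) (s : B) : ¬ cs.IsReduced (ω ++ [s] ++ [s]) := by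
  intro h
  have h1 : cs.length (cs.wordProd (ω ++ [s] ++ [s])) = (ω ++ [s] ++ [s]).length := h
  rw [cs.wordProd_append, cs.wordProd_append, cs.wordProd_singleton,
    cs.simple_mul_simple_cancel_right] at h1
  have h2 := cs.length_wordProd_le ω
  simp only [List.length_append, List.length_singleton] at h1
  omega

/-- a reduced word with two letters is alternating -/
theorem altn {s t : B} (ω : List B) (hω : cs.IsReduced ω) (hJ : ∀ i ∈ ω, i ∈ ({s, t} : Set B)) :
    ω = alternatingWord s t ω.length ∨ ω = alternatingWord t s ω.length := by
  induction ω using List.reverseRecOn with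
  | nil => left; rfl
  | append_singleton ω x ih =>
    have h1 := red_left cs hω
    have h2 := ih h1 fun i hi => hJ i (by simp [hi])
    have hx : x = s ∨ x = t := hJ x (by simp)
    obtain ⟨n, hn⟩ : ∃ n, n = ω.length := ⟨_, rfl⟩
    rw [← hn] at h2
    have hlen : (ω ++ [x]).length = n + 1 := by rw [List.length_append, List.length_singleton, hn]
    rw [hlen]
    rcases h2 with h2 | h2 <;> rcases hx with hx | hx
    · right
      rw [hx, h2, alternatingWord_succ, List.concat_eq_append]
    · rcases Nat.eq_zero_or_pos n with h3 | h3
      · left
        rw [h3] at h2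
        have h4 : ω = [] := h2
        rw [hx, h4, h3]
        rfl
      · exfalso
        obtain ⟨m, rfl⟩ : ∃ m, n = m + 1 := ⟨n - 1, by omega⟩
        rw [alternatingWord_succ, List.concat_eq_append] at h2
        rw [h2, hx] at hω
        exact not_red cs _ _ hω
    · rcases Nat.eq_zero_or_pos n with h3 | h3
      · right
        rw [h3] at h2
        have h4 : ω = [] := h2
        rw [hx, h4, h3]
        rfl
      · exfalso
        obtain ⟨m, rfl⟩ : ∃ m, n = m + 1 := ⟨n - 1, by omega⟩
        rw [alternatingWord_succ, List.concat_eq_append] at h2
        rw [h2, hx] at hω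
        exact not_red cs _ _ hω
    · left
      rw [hx, h2, alternatingWord_succ, List.concat_eq_append]

/-- an element of the dihedral subgroup with right descent `t` is the product of the alternating word which ends
with `t` -/
theorem ends (hP : PARs cs) {s t : B} {v : W} (hv : v ∈ parC cs ({s, t} : Set B))
    (hd : cs.IsRightDescent v t) : v = cs.wordProd (alternatingWord s t (cs.length v)) := by
  have ht : cs.simple t ∈ parC cs ({s, t} : Set B) := Subgroup.subset_closure ⟨t, by simp, rfl⟩
  have hd' := cs.isRightDescent_iff.1 hd
  obtain ⟨ω, h1, h2, h3⟩ := hP.word _ (v * cs.simple t) (mul_mem hv ht)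
  have hlen : ω.length + 1 = cs.length v := by
    rw [← hd', h3, h1.eq]
  have hvv : v = cs.wordProd ω * cs.simple t := by
    rw [← h3, cs.simple_mul_simple_cancel_right]
  obtain ⟨n, hn⟩ : ∃ n, n = ω.length := ⟨_, rfl⟩
  have h4 := altn cs ω h1 h2
  rw [← hn] at h4 hlen
  rw [← hlen, alternatingWord_succ, cs.wordProd_concat]
  rcases h4 with h4 | h4
  · rcases Nat.eq_zero_or_pos n with h5 | h5
    · rw [hvv, h4, h5]
      rfl
    · exfalso
      obtain ⟨m, rfl⟩ : ∃ m, n = m + 1 := ⟨n - 1, by omega⟩
      rw [alternatingWord_succ] at h4
      rw [h4, cs.wordProd_concat, cs.simple_mul_simple_cancel_right] at hvv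
      have h6 := cs.length_wordProd_le (alternatingWord t s m)
      rw [← hvv, length_alternatingWord] at h6
      omega
  · rw [← h4]
    exact hvv

/-- the order -/
theorem ord {s t : B} {k : ℕ} (h : cs.wordProd (alternatingWord s t k) =
    cs.wordProd (alternatingWord t s k)) : (cs.simple s * cs.simple t) ^ k = 1 := by
  have hinv : cs.simple t * cs.simple s = (cs.simple s * cs.simple t)⁻¹ := by
    rw [mul_inv_rev, cs.inv_simple, cs.inv_simple]
  rw [cs.prod_alternatingWord_eq_mul_pow, cs.prod_alternatingWord_eq_mul_pow, hinv, inv_pow] at h
  rcases Nat.even_or_odd k with hk | hk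
  · rw [if_pos hk, if_pos hk, one_mul, one_mul] at h
    obtain ⟨m, hm⟩ := hk
    have h1 : k / 2 = m := by omega
    rw [h1] at h
    rw [hm, pow_add]
    nth_rewrite 1 [h]
    exact inv_mul_cancel _
  · have hk' : ¬ Even k := Nat.not_even_iff_odd.2 hk
    rw [if_neg hk', if_neg hk'] at h
    obtain ⟨m, hm⟩ := hk
    have h1 : k / 2 = m := by omega
    rw [h1] at h
    have h2 := congrArg (fun x => cs.simple s * x) h
    beta_reduce at h2
    rw [← mul_assoc, ← mul_assoc, cs.simple_mul_simple_self, one_mul, ← pow_succ'] at h2
    rw [hm, show 2 * m + 1 = (m + 1) + m by ring, pow_add, h2]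
    exact inv_mul_cancel _

end

/-- the product over an alternating word -/
theorem prod_alt {V A : Type} [Monoid A] (f : V → A) (i j : V) (n : ℕ) :
    ((alternatingWord i j n).map f).prod = alt (f j) (f i) n := by
  induction n generalizing i j with
  | zero => rfl
  | succ n ih =>
    rw [alternatingWord_succ, List.concat_eq_append, List.map_append, List.prod_append, ih]
    simp [alt]

end MAT

/-- **MAT.** -/
theorem t_MAT : S_MAT := by
  intro hPAR hOrd V _ _ M A _ f hf
  set cs := M.toCoxeterSystem with hcs
  have hP := hPAR V M.Group M cs
  have main : ∀ n : ℕ, ∀ ω ω' : List V, ω.length = n → ω'.length = n → cs.IsReduced ω →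
      cs.IsReduced ω' → cs.wordProd ω = cs.wordProd ω' → (ω.map f).prod = (ω'.map f).prod := by
    intro n
    induction n with
    | zero =>
      intro ω ω' h1 h2 _ _ _
      rw [List.length_eq_zero_iff.1 h1, List.length_eq_zero_iff.1 h2]
    | succ n ih =>
      -- the same last letter
      have same : ∀ (x y : List V) (c : V), (x ++ [c]).length = n + 1 → (y ++ [c]).length = n + 1 →
          cs.IsReduced (x ++ [c]) → cs.IsReduced (y ++ [c]) →
          cs.wordProd (x ++ [c]) = cs.wordProd (y ++ [c]) →
          ((x ++ [c]).map f).prod = ((y ++ [c]).map f).prod := by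
        intro x y c h1 h2 h3 h4 h5
        rw [List.length_append, List.length_singleton] at h1 h2
        rw [cs.wordProd_append, cs.wordProd_append] at h5
        rw [List.map_append, List.map_append, List.prod_append, List.prod_append,
          ih x y (by omega) (by omega) (MAT.red_left cs h3) (MAT.red_left cs h4)
            (mul_right_cancel h5)]
      intro ω ω' h1 h2 h3 h4 h5
      rcases List.eq_nil_or_concat ω with h6 | ⟨x, s, h6⟩
      · rw [h6] at h1
        simp at h1
      rcases List.eq_nil_or_concat ω' with h7 | ⟨y, t, h7⟩
      · rw [h7] at h2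
        simp at h2
      rw [List.concat_eq_append] at h6 h7
      subst h6 h7
      by_cases hst : s = t
      · subst hst
        exact same x y s h1 h2 h3 h4 h5
      · obtain ⟨u, v, e1, e2, e3⟩ := hP.dec ({s, t} : Set V) (cs.wordProd (x ++ [s]))
        have hadd := hP.add ({s, t} : Set V) u
        have hsJ : cs.simple s ∈ parC cs ({s, t} : Set V) :=
          Subgroup.subset_closure ⟨s, by simp, rfl⟩
        have htJ : cs.simple t ∈ parC cs ({s, t} : Set V) :=
          Subgroup.subset_closure ⟨t, by simp, rfl⟩
        have hlen : cs.length u + cs.length v = n + 1 := by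
          rw [← hadd v e3 e2, ← e1, h3.eq, h1]
        -- descents of `v`
        have hds : cs.IsRightDescent v s := by
          unfold CoxeterSystem.IsRightDescent
          have g1 := hadd (v * cs.simple s) e3 (mul_mem e2 hsJ)
          rw [← mul_assoc, ← e1, cs.wordProd_append, cs.wordProd_singleton,
            cs.simple_mul_simple_cancel_right] at g1
          have g2 := cs.length_wordProd_le x
          rw [List.length_append, List.length_singleton] at h1
          omega
        have hdt : cs.IsRightDescent v t := by
          unfold CoxeterSystem.IsRightDescent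
          have g1 := hadd (v * cs.simple t) e3 (mul_mem e2 htJ)
          rw [← mul_assoc, ← e1, h5, cs.wordProd_append, cs.wordProd_singleton,
            cs.simple_mul_simple_cancel_right] at g1
          have g2 := cs.length_wordProd_le y
          rw [List.length_append, List.length_singleton] at h2
          omega
        obtain ⟨k, hk⟩ : ∃ k, k = cs.length v := ⟨_, rfl⟩
        have hv1 : v = cs.wordProd (alternatingWord s t k) := by
          rw [hk]
          exact MAT.ends cs hP e2 hdt
        have hv2 : v = cs.wordProd (alternatingWord t s k) := by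
          rw [hk]
          exact MAT.ends cs hP (s := t) (t := s) (by rwa [Set.pair_comm]) hds
        have hpow := MAT.ord cs (hv1.symm.trans hv2)
        have hdvd := hOrd V M s t k hpow
        have hk0 : 1 ≤ k := by
          unfold CoxeterSystem.IsRightDescent at hds
          omega
        have hM0 : M s t ≠ 0 := by
          intro h0
          rw [h0] at hdvd
          have := Nat.eq_zero_of_zero_dvd hdvd
          omega
        have hkM : k = M s t := by
          refine le_antisymm ?_ (Nat.le_of_dvd (by omega) hdvd)
          by_contra hlt
          rw [not_le] at hlt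
          apply cs.not_isReduced_alternatingWord s t hM0 hlt
          unfold CoxeterSystem.IsReduced
          rw [← hv1, length_alternatingWord, hk]
        obtain ⟨ωu, g1, g2⟩ := cs.exists_isReduced u
        have hlu : ωu.length = cs.length u := by rw [g2, g1.eq]
        -- the two words
        have hα : cs.wordProd (ωu ++ alternatingWord s t k) = cs.wordProd (x ++ [s]) := by
          rw [cs.wordProd_append, ← g2, ← hv1, e1]
        have hβ : cs.wordProd (ωu ++ alternatingWord t s k) = cs.wordProd (x ++ [s]) := by
          rw [cs.wordProd_append, ← g2, ← hv2, e1]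
        have lα : (ωu ++ alternatingWord s t k).length = n + 1 := by
          rw [List.length_append, length_alternatingWord, hlu, hk, hlen]
        have lβ : (ωu ++ alternatingWord t s k).length = n + 1 := by
          rw [List.length_append, length_alternatingWord, hlu, hk, hlen]
        have rα : cs.IsReduced (ωu ++ alternatingWord s t k) := by
          unfold CoxeterSystem.IsReduced
          rw [hα, h3.eq, h1, lα]
        have rβ : cs.IsReduced (ωu ++ alternatingWord t s k) := by
          unfold CoxeterSystem.IsReduced
          rw [hβ, h3.eq, h1, lβ]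
        have hαβ : ((ωu ++ alternatingWord s t k).map f).prod =
            ((ωu ++ alternatingWord t s k).map f).prod := by
          rw [List.map_append, List.map_append, List.prod_append, List.prod_append, MAT.prod_alt,
            MAT.prod_alt, hkM, hf s t]
        obtain ⟨m, hm⟩ : ∃ m, k = m + 1 := ⟨k - 1, by omega⟩
        have sα : ωu ++ alternatingWord s t k = (ωu ++ alternatingWord t s m) ++ [t] := by
          rw [hm, alternatingWord_succ, List.concat_eq_append, List.append_assoc]
        have sβ : ωu ++ alternatingWord t s k = (ωu ++ alternatingWord s t m) ++ [s] := by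
          rw [hm, alternatingWord_succ, List.concat_eq_append, List.append_assoc]
        have q1 : ((x ++ [s]).map f).prod = ((ωu ++ alternatingWord t s k).map f).prod := by
          rw [sβ]
          rw [sβ] at lβ rβ hβ
          exact same x _ s h1 lβ h3 rβ hβ.symm
        have q2 : ((y ++ [t]).map f).prod = ((ωu ++ alternatingWord s t k).map f).prod := by
          rw [sα]
          rw [sα] at lα rα hα
          exact same y _ t h2 lα h4 rα (h5.symm.trans hα.symm)
        rw [q1, q2, hαβ]
  intro ω ω' h1 h2 h3
  refine main ω.length ω ω' rfl ?_ h1 h2 h3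
  rw [← h1.eq, ← h2.eq, h3]

end Pool.Agent.H56T.GA
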