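import Pool.Agent.H56T.Stm5

/-!
# Project GA, piece MOB (helper70)
-/

set_option autoImplicit false

namespace Pool.Agent.H56T.GA

theorem t_MOB : S_MOB := by
  intro P _ _
  classical
  have : LocallyFiniteOrder P := Fintype.toLocallyFiniteOrder
  refine ⟨fun a b => IncidenceAlgebra.mu ℤ a b, fun a c => ?_⟩
  have h := congrArg (fun f => f a c) (IncidenceAlgebra.mu_mul_zeta (𝕜 := ℤ) (α := P))
  simp only [IncidenceAlgebra.mul_apply, IncidenceAlgebra.one_apply, IncidenceAlgebra.zeta_apply]
    at h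
  rw [← h]
  refine (Finset.sum_subset (Finset.subset_univ _) fun b _ hb => ?_).symm
  rw [Finset.mem_Icc, not_and_or] at hb
  rcases hb with hb | hb
  · have h0 : IncidenceAlgebra.mu ℤ a b = 0 := IncidenceAlgebra.apply_eq_zero_of_not_le hb _
    show IncidenceAlgebra.mu ℤ a b * _ = 0
    rw [h0, zero_mul]
  · rw [if_neg hb, mul_zero]

end Pool.Agent.H56T.GA
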