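import Pool.Agent.H56T.Stm5

set_option autoImplicit false
set_option linter.unusedSectionVars false

/-!
# Nested sets (piece NSG of project GA)
-/

namespace Pool.Agent.H56T.GA

open Pool.Agent.W907.SG Pool.Agent.H56T.LR Finset

namespace NSG

variable {V : Type} (M : CoxeterMatrix V)

theorem par_mono {S T : Finset V} (h : S ⊆ T) : par M S ≤ par M T :=
  Subgroup.closure_mono (Set.image_mono (coe_subset.mpr h))

theorem sphl_mono {S T : Finset V} (h : S ⊆ T) (hT : Sphl M T) : Sphl M S :=
  hT.subset (par_mono M h)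

theorem sphl_empty : Sphl M ∅ := by
  unfold Sphl par
  rw [coe_empty, Set.image_empty, Subgroup.closure_empty]
  exact Set.finite_singleton _

theorem comm_simple {a b : V} (h : M a b = 2) :
    Commute (M.toCoxeterSystem.simple a) (M.toCoxeterSystem.simple b) := by
  have h1 := M.toCoxeterSystem.simple_mul_simple_pow a b
  rw [h, pow_two] at h1
  have h2 := M.toCoxeterSystem.simple_mul_simple_self a
  have h3 := M.toCoxeterSystem.simple_mul_simple_self b
  show _ * _ = _ * _
  have h4 := mul_eq_one_iff_eq_inv.mp h1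
  rw [h4, mul_inv_rev, inv_eq_of_mul_eq_one_left h2, inv_eq_of_mul_eq_one_left h3]

theorem comm_par {A C : Finset V} (h : ∀ a ∈ A, ∀ c ∈ C, M a c = 2) {x y : M.Group}
    (hx : x ∈ par M A) (hy : y ∈ par M C) : Commute x y := by
  have h1 : par M A ≤ Subgroup.centralizer (par M C : Set M.Group) := by
    unfold par
    rw [Subgroup.closure_le]
    rintro _ ⟨a, ha, rfl⟩
    rw [SetLike.mem_coe, Subgroup.mem_centralizer_iff]
    intro g hg
    have h2 : Subgroup.closure (M.toCoxeterSystem.simple '' (C : Set V)) ≤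
        Subgroup.centralizer {M.toCoxeterSystem.simple a} := by
      rw [Subgroup.closure_le]
      rintro _ ⟨c, hc, rfl⟩
      rw [SetLike.mem_coe, Subgroup.mem_centralizer_iff]
      rintro g rfl
      exact comm_simple M (h a ha c hc)
    have h3 := h2 hg
    rw [Subgroup.mem_centralizer_iff] at h3
    exact (h3 _ rfl).symm
  have h2 := h1 hx
  rw [Subgroup.mem_centralizer_iff] at h2
  exact (h2 y hy).symm

open scoped Pointwise in
theorem sphl_union [DecidableEq V] {A C : Finset V} (h : ∀ a ∈ A, ∀ c ∈ C, M a c = 2) (hA : Sphl M A)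
    (hC : Sphl M C) : Sphl M (A ∪ C) := by
  have hfin : ((par M A : Set M.Group) * (par M C : Set M.Group)).Finite := Set.Finite.mul hA hC
  refine hfin.subset fun g hg => ?_
  replace hg : g ∈ Subgroup.closure (M.toCoxeterSystem.simple '' ((A ∪ C : Finset V) : Set V)) := hg
  induction hg using Subgroup.closure_induction with
  | mem x hx =>
    obtain ⟨v, hv, rfl⟩ := hx
    rcases mem_union.mp (mem_coe.mp hv) with h1 | h1
    · exact ⟨_, Subgroup.subset_closure ⟨v, h1, rfl⟩, 1, one_mem _, mul_one _⟩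
    · exact ⟨1, one_mem _, _, Subgroup.subset_closure ⟨v, h1, rfl⟩, one_mul _⟩
  | one => exact ⟨1, one_mem _, 1, one_mem _, one_mul _⟩
  | mul x y _ _ hx hy =>
    obtain ⟨a, ha, c, hc, rfl⟩ := hx
    obtain ⟨a', ha', c', hc', rfl⟩ := hy
    refine ⟨a * a', mul_mem ha ha', c * c', mul_mem hc hc', ?_⟩
    have := comm_par M h ha' hc
    show a * a' * (c * c') = a * c * (a' * c')
    rw [mul_assoc, mul_assoc, ← mul_assoc a' c c', this.eq, mul_assoc]
  | inv x _ hx =>
    obtain ⟨a, ha, c, hc, rfl⟩ := hx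
    refine ⟨a⁻¹, inv_mem ha, c⁻¹, inv_mem hc, ?_⟩
    have := comm_par M h (inv_mem ha) (inv_mem hc)
    show a⁻¹ * c⁻¹ = (a * c)⁻¹
    rw [mul_inv_rev, this.eq]

variable [DecidableEq V]

/-- the union of a set of irreducible sets -/
def un (Q : Finset (II M)) : Finset V := Q.biUnion fun B => B.1

/-- the union of a clique is spherical -/
theorem sphl_clique [DecidableEq (II M)] (n : ℕ) : ∀ Q : Finset (II M), Q.card = n →
    (LGG M).IsClique (Q : Set (II M)) → Sphl M (un M Q) := by
  classical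
  induction n using Nat.strong_induction_on with
  | _ n ih =>
    intro Q hn hQ
    rcases Q.eq_empty_or_nonempty with rfl | hne
    · exact sphl_empty M
    · obtain ⟨B, hB, hmax⟩ := exists_max_image Q (fun B => B.1.card) hne
      set Q' := Q.filter fun x => ∀ a ∈ B.1, ∀ b ∈ x.1, M a b = 2 with hQ'
      have hBQ : B ∉ Q' := by
        intro h
        obtain ⟨a, ha⟩ := B.2.2.1
        have := (mem_filter.mp h).2 a ha a ha
        rw [M.diagonal] at this
        omega
      have hlt : Q'.card < n := by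
        rw [← hn]
        exact card_lt_card ⟨filter_subset _ _, fun h => hBQ (h hB)⟩
      have h1 : Sphl M (un M Q') := ih _ hlt Q' rfl (hQ.subset (coe_subset.mpr (filter_subset _ _)))
      have h2 : Sphl M (B.1 ∪ un M Q') := by
        refine sphl_union M (fun a ha c hc => ?_) B.2.1 h1
        obtain ⟨x, hx, hcx⟩ := mem_biUnion.mp hc
        exact (mem_filter.mp hx).2 a ha c hcx
      refine sphl_mono M (fun v hv => ?_) h2
      obtain ⟨x, hx, hvx⟩ := mem_biUnion.mp hv
      rw [mem_union]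
      by_cases hxB : x = B
      · exact Or.inl (hxB ▸ hvx)
      · rcases (hQ (mem_coe.mpr hx) (mem_coe.mpr hB) hxB).2 with h3 | h3 | h3
        · exact Or.inl (h3 hvx)
        · have h4 : B.1 = x.1 := eq_of_subset_of_card_le h3 (hmax x hx)
          exact absurd (Subtype.ext h4.symm) hxB
        · refine Or.inr (mem_biUnion.mpr ⟨x, mem_filter.mpr ⟨hx, fun a ha b hb => ?_⟩, hvx⟩)
          rw [M.symmetric]
          exact h3 b hb a ha

end NSG

open NSG in
theorem t_NSG : S_NSG := by
  intro hN V _ _ M _ i hE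
  classical
  have hr : ∀ B : II M, ∃ v, v ∈ B.1 := fun B => B.2.2.1
  choose r hr using hr
  refine hN V (II M) (LGG M) (Sphl M) (fun T => {B | B.1 ⊆ T}) r i (fun T T' h hT => sphl_mono M h hT)
    (fun T T' h B hB => Subset.trans hB h) ?_ (fun T B hB => hB (hr B)) ?_ hE
  · intro T hT hne
    -- the minimal union of components
    have hex : ((T.powerset.filter fun B => B.Nonempty ∧ ∀ a ∈ B, ∀ b ∈ T \ B, M a b = 2)).Nonempty :=
      ⟨T, mem_filter.mpr ⟨mem_powerset_self T, hne, fun a _ b hb => by simp at hb⟩⟩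
    obtain ⟨B, hB, hmin⟩ := exists_min_image _ (fun B => B.card) hex
    rw [mem_filter, mem_powerset] at hB
    obtain ⟨hBT, hBne, hB2⟩ := hB
    have hirr : Irr M B := by
      refine ⟨hBne, fun A hA hAne hAB => ?_⟩
      by_contra hcon
      push Not at hcon
      have h1 : A ∈ T.powerset.filter fun B => B.Nonempty ∧ ∀ a ∈ B, ∀ b ∈ T \ B, M a b = 2 := by
        rw [mem_filter, mem_powerset]
        refine ⟨hA.trans hBT, hAne, fun a ha b hb => ?_⟩
        rw [mem_sdiff] at hb
        by_cases hbB : b ∈ B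
        · exact hcon a ha b (mem_sdiff.mpr ⟨hbB, hb.2⟩)
        · exact hB2 a (hA ha) b (mem_sdiff.mpr ⟨hb.1, hbB⟩)
      exact hAB (eq_of_subset_of_card_le hA (hmin A h1))
    refine ⟨⟨B, sphl_mono M hBT hT, hirr⟩, hBT, fun C hC => ?_⟩
    have hC : C.1 ⊆ T := hC
    by_cases hCB : C = ⟨B, sphl_mono M hBT hT, hirr⟩
    · exact Or.inl hCB
    · refine Or.inr ⟨hCB, ?_⟩
      show C.1 ⊆ B ∨ B ⊆ C.1 ∨ ∀ a ∈ C.1, ∀ b ∈ B, M a b = 2
      by_cases h1 : (C.1 ∩ B).Nonempty
      · by_cases h2 : C.1 ∩ B = C.1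
        · exact Or.inl (inter_eq_left.mp h2)
        · obtain ⟨a, ha, b, hb, hab⟩ := C.2.2.2 _ inter_subset_left h1 h2
          rw [mem_sdiff, mem_inter, not_and] at hb
          exact absurd (hB2 a (mem_inter.mp ha).2 b (mem_sdiff.mpr ⟨hC hb.1, hb.2 hb.1⟩)) hab
      · rw [not_nonempty_iff_eq_empty] at h1
        refine Or.inr (Or.inr fun a ha b hb => ?_)
        rw [M.symmetric]
        refine hB2 b hb a (mem_sdiff.mpr ⟨hC ha, fun h => ?_⟩)
        have : a ∈ C.1 ∩ B := mem_inter.mpr ⟨ha, h⟩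
        rw [h1] at this
        exact notMem_empty _ this
  · intro Q hQ
    refine sphl_mono M (fun v hv => ?_) (sphl_clique M _ Q rfl hQ)
    obtain ⟨B, hB, rfl⟩ := mem_image.mp hv
    exact mem_biUnion.mpr ⟨B, hB, hr B⟩

end Pool.Agent.H56T.GA
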