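import Pool.Agent.H56T.Stm5
import Pool.Agent.H56T.LSUB

set_option autoImplicit false
set_option linter.unusedSectionVars false

/-!
# Abstract subdivision over `F_2` (piece NST of project GA)
-/

namespace Pool.Agent.H56T.GA

open Pool.Agent.W907.SG Pool.Agent.H56T.LR Finset

namespace NST

section cone

variable {N : Type} [Fintype N] [DecidableEq N]

/-- the cone over a chain -/
def cone (a : N) (x : Finset N → ZMod 2) (Q : Finset N) : ZMod 2 := if a ∈ Q then x (Q.erase a) else 0

theorem cone_zero (a : N) : cone a 0 = 0 := by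
  funext Q
  simp [cone]

theorem bb_cone (a : N) (x : Finset N → ZMod 2) : bb (cone a x) = x + cone a (bb x) := by
  funext Q
  show ∑ v ∈ Qᶜ, cone a x (insert v Q) = x Q + cone a (bb x) Q
  by_cases ha : a ∈ Q
  · have h1 : cone a (bb x) Q = ∑ v ∈ (Q.erase a)ᶜ, x (insert v (Q.erase a)) := by
      unfold cone
      rw [if_pos ha]
      rfl
    have h2 : (Q.erase a)ᶜ = insert a Qᶜ := by
      ext u
      simp only [mem_compl, mem_erase, mem_insert, not_and]
      constructor
      · intro h
        by_cases hu : u = a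
        · exact Or.inl hu
        · exact Or.inr (h hu)
      · rintro (rfl | h) h'
        · exact absurd rfl h'
        · exact h
    have h3 : a ∉ Qᶜ := by
      rw [mem_compl, not_not]
      exact ha
    rw [h1, h2, sum_insert h3, insert_erase ha, ← add_assoc, CharTwo.add_self_eq_zero, zero_add]
    refine sum_congr rfl fun v hv => ?_
    have hva : v ≠ a := fun h => (mem_compl.mp hv) (h ▸ ha)
    unfold cone
    rw [if_pos (mem_insert_of_mem ha), erase_insert_of_ne hva]
  · have h1 : cone a (bb x) Q = 0 := by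
      unfold cone
      rw [if_neg ha]
    rw [h1, add_zero, sum_eq_single a]
    · unfold cone
      rw [if_pos (mem_insert_self _ _), erase_insert ha]
    · intro v hv hva
      unfold cone
      rw [if_neg]
      intro h
      rcases mem_insert.mp h with h | h
      · exact hva h.symm
      · exact ha h
    · intro h
      exact absurd (mem_compl.mpr ha) h

theorem bb_add (x y : Finset N → ZMod 2) : bb (x + y) = bb x + bb y := by
  funext Q
  show ∑ v ∈ Qᶜ, (x + y) (insert v Q) = _
  exact sum_add_distrib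

theorem bb_zero : bb (0 : Finset N → ZMod 2) = 0 := by
  funext Q
  show ∑ v ∈ Qᶜ, (0 : ZMod 2) = 0
  simp

theorem bb_sum {ι : Type} (s : Finset ι) (f : ι → Finset N → ZMod 2) : bb (∑ t ∈ s, f t) = ∑ t ∈ s, bb (f t) := by
  classical
  induction s using Finset.induction_on with
  | empty => simp [bb_zero]
  | insert a s ha ih => rw [sum_insert ha, sum_insert ha, bb_add, ih]

theorem bb_smul (c : ZMod 2) (x : Finset N → ZMod 2) : bb (c • x) = c • bb x := by
  funext Q
  show ∑ v ∈ Qᶜ, c * x (insert v Q) = c * ∑ v ∈ Qᶜ, x (insert v Q)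
  rw [mul_sum]

end cone

section pfl

variable {V W : Type} [Fintype V] [DecidableEq V] [Fintype W] [DecidableEq W]

theorem pf_add (r : W → V) (x y : Finset W → ZMod 2) : LSUB.pf r (x + y) = LSUB.pf r x + LSUB.pf r y := by
  funext T
  unfold LSUB.pf
  exact sum_add_distrib

theorem pf_zero (r : W → V) : LSUB.pf r (0 : Finset W → ZMod 2) = 0 := by
  funext T
  unfold LSUB.pf
  exact sum_eq_zero fun _ _ => rfl

theorem pf_sum (r : W → V) {ι : Type} (s : Finset ι) (f : ι → Finset W → ZMod 2) :
    LSUB.pf r (∑ t ∈ s, f t) = ∑ t ∈ s, LSUB.pf r (f t) := by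
  classical
  induction s using Finset.induction_on with
  | empty => simp [pf_zero]
  | insert a s ha ih => rw [sum_insert ha, sum_insert ha, pf_add, ih]

theorem pf_smul (r : W → V) (c : ZMod 2) (x : Finset W → ZMod 2) : LSUB.pf r (c • x) = c • LSUB.pf r x := by
  funext T
  unfold LSUB.pf
  show _ = c * _
  rw [mul_sum]
  rfl

end pfl

section sd

variable {V N : Type} [DecidableEq V] [DecidableEq N] {S : Finset V → Prop}

open Classical in
/-- the subdivision of a set -/
noncomputable def sd (a : ∀ T : Finset V, S T ∧ T.Nonempty → N) (T : Finset V) : Finset N → ZMod 2 :=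
  if h : S T ∧ T.Nonempty then cone (a T h) (∑ t : T, sd a (T.erase t)) else fun Q => if Q = ∅ then 1 else 0
termination_by T.card
decreasing_by exact card_erase_lt_of_mem t.2

theorem sd_empty (a : ∀ T : Finset V, S T ∧ T.Nonempty → N) : sd a ∅ = fun Q => if Q = ∅ then 1 else 0 := by
  rw [sd, dif_neg]
  simp

theorem sd_pos (a : ∀ T : Finset V, S T ∧ T.Nonempty → N) {T : Finset V} (h : S T ∧ T.Nonempty) :
    sd a T = cone (a T h) (∑ t ∈ T, sd a (T.erase t)) := by
  rw [sd, dif_pos h]
  congr 1
  exact sum_coe_sort T fun t => sd a (T.erase t)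

/-- the double sum vanishes -/
theorem dbl {A : Type} [AddCommGroup A] (hA : ∀ x : A, x + x = 0) (f : Finset V → A) (T : Finset V) :
    ∑ t ∈ T, ∑ s ∈ T.erase t, f ((T.erase t).erase s) = 0 := by
  rw [sum_sigma']
  refine sum_involution (fun p _ => ⟨p.2, p.1⟩) ?_ ?_ ?_ ?_
  · rintro ⟨t, s⟩ _
    show f ((T.erase t).erase s) + f ((T.erase s).erase t) = 0
    rw [erase_right_comm]
    exact hA _
  · rintro ⟨t, s⟩ h _ he
    rw [mem_sigma, mem_erase] at h
    have : s = t := congrArg Sigma.fst he
    exact h.2.1 this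
  · rintro ⟨t, s⟩ h
    rw [mem_sigma, mem_erase] at h ⊢
    exact ⟨h.2.2, h.2.1.symm, h.1⟩
  · rintro ⟨t, s⟩ h
    rfl

theorem z2f (x : Finset N → ZMod 2) : x + x = 0 := by
  funext Q
  exact CharTwo.add_self_eq_zero _

variable [Fintype N]

theorem bb_sd (a : ∀ T : Finset V, S T ∧ T.Nonempty → N) (hS : ∀ T T' : Finset V, T' ⊆ T → S T → S T')
    (n : ℕ) : ∀ T : Finset V, T.card = n → S T → bb (sd a T) = ∑ t ∈ T, sd a (T.erase t) := by
  induction n with
  | zero =>
    intro T hT _
    rw [card_eq_zero] at hT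
    subst hT
    rw [sd_empty, sum_empty]
    funext Q
    show ∑ v ∈ Qᶜ, (if insert v Q = ∅ then (1 : ZMod 2) else 0) = 0
    exact sum_eq_zero fun v _ => if_neg (insert_nonempty v Q).ne_empty
  | succ n ih =>
    intro T hT hST
    have hn : T.Nonempty := by
      rw [← card_pos]; omega
    rw [sd_pos a ⟨hST, hn⟩, bb_cone, bb_sum]
    have h1 : ∑ t ∈ T, bb (sd a (T.erase t)) = ∑ t ∈ T, ∑ s ∈ T.erase t, sd a ((T.erase t).erase s) :=
      sum_congr rfl fun t ht => ih _ (by rw [card_erase_of_mem ht, hT]; rfl) (hS _ _ (erase_subset _ _) hST)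
    rw [h1, dbl z2f (fun U => sd a U), cone_zero, add_zero]

theorem sd_supp (a : ∀ T : Finset V, S T ∧ T.Nonempty → N) (hS : ∀ T T' : Finset V, T' ⊆ T → S T → S T')
    (G : SimpleGraph N) (K : Finset V → Set N) (hK : ∀ T T' : Finset V, T' ⊆ T → K T' ⊆ K T)
    (ha : ∀ T h, a T h ∈ K T ∧ ∀ x ∈ K T, x = a T h ∨ G.Adj x (a T h))
    (n : ℕ) : ∀ (T : Finset V), T.card = n → S T → ∀ Q : Finset N, sd a T Q ≠ 0 →
      (Q : Set N) ⊆ K T ∧ G.IsClique (Q : Set N) ∧ Q.card = T.card := by
  induction n with
  | zero =>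
    intro T hT _ Q hQ
    rw [card_eq_zero] at hT
    subst hT
    rw [sd_empty] at hQ
    have : Q = ∅ := by
      by_contra h
      exact hQ (if_neg h)
    subst this
    simp
  | succ n ih =>
    intro T hT hST Q hQ
    have hn : T.Nonempty := by
      rw [← card_pos]; omega
    rw [sd_pos a ⟨hST, hn⟩] at hQ
    unfold cone at hQ
    split_ifs at hQ with haQ
    swap
    · exact absurd rfl hQ
    rw [Finset.sum_apply] at hQ
    obtain ⟨t, ht, hne⟩ := exists_ne_zero_of_sum_ne_zero hQ
    have hc : (T.erase t).card = n := by rw [card_erase_of_mem ht, hT]; rfl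
    obtain ⟨h1, h2, h3⟩ := ih (T.erase t) hc (hS _ _ (erase_subset _ _) hST) _ hne
    obtain ⟨ha1, ha2⟩ := ha T ⟨hST, hn⟩
    have h4 : ((Q.erase (a T ⟨hST, hn⟩) : Finset N) : Set N) ⊆ K T := fun x hx => hK _ _ (erase_subset _ _) (h1 hx)
    have h5 : Q = insert (a T ⟨hST, hn⟩) (Q.erase (a T ⟨hST, hn⟩)) := (insert_erase haQ).symm
    refine ⟨?_, ?_, ?_⟩
    · intro x hx
      by_cases hxa : x = a T ⟨hST, hn⟩
      · rw [hxa]; exact ha1
      · exact h4 (mem_coe.mpr (mem_erase.mpr ⟨hxa, hx⟩))
    · rw [h5, coe_insert, SimpleGraph.isClique_insert_of_notMem (by simp)]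
      refine ⟨h2, fun b hb => ?_⟩
      rcases ha2 b (h4 hb) with h6 | h6
      · exact absurd h6 (mem_erase.mp (mem_coe.mp hb)).1
      · exact h6.symm
    · rw [card_erase_of_mem haQ] at h3
      rw [hc] at h3
      have := card_pos.mpr ⟨_, haQ⟩
      omega

end sd

end NST

open NST in
theorem t_NST : S_NST := by
  intro V N _ _ _ _ G S K r i hS hK hc hr hQ hE z hz hz0
  classical
  have hex : ∀ T : Finset V, S T ∧ T.Nonempty → ∃ a : N, a ∈ K T ∧ ∀ x ∈ K T, x = a ∨ G.Adj x a :=
    fun T h => hc T h.1 h.2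
  choose a ha using hex
  have hbb : ∀ T, S T → bb (sd a T) = ∑ t ∈ T, sd a (T.erase t) := fun T hT => bb_sd a hS _ T rfl hT
  have hsupp : ∀ T, S T → ∀ Q : Finset N, sd a T Q ≠ 0 → (Q : Set N) ⊆ K T ∧ G.IsClique (Q : Set N) ∧ Q.card = T.card :=
    fun T hT Q h => sd_supp a hS G K hK ha _ T rfl hT Q h
  -- push forward of the subdivision
  have hpf0 : ∀ T, S T → ∀ T', T' ≠ T → LSUB.pf r (sd a T) T' = 0 := by
    intro T hT T' hne
    unfold LSUB.pf
    refine sum_eq_zero fun C hC => ?_
    rw [mem_filter] at hC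
    obtain ⟨-, h1, h2⟩ := hC
    by_contra h3
    obtain ⟨h4, -, h5⟩ := hsupp T hT C h3
    apply hne
    refine eq_of_subset_of_card_le ?_ (by omega)
    rw [← h1]
    intro v hv
    obtain ⟨x, hx, rfl⟩ := mem_image.mp hv
    exact hr T x (h4 hx)
  have hpf1 : ∀ n : ℕ, ∀ T : Finset V, T.card = n → S T → LSUB.pf r (sd a T) T = 1 := by
    intro n
    induction n with
    | zero =>
      intro T hT _
      rw [card_eq_zero] at hT
      subst hT
      rw [sd_empty]
      unfold LSUB.pf
      rw [sum_eq_single ∅]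
      · simp
      · intro b hb hb0
        exact if_neg hb0
      · intro h
        exfalso
        apply h
        simp
    | succ n ih =>
      intro T hT hST
      have hn : T.Nonempty := by
        rw [← card_pos]; omega
      obtain ⟨t, ht⟩ := hn
      have h1 : bb (LSUB.pf r (sd a T)) (T.erase t) = LSUB.pf r (bb (sd a T)) (T.erase t) := by
        rw [LSUB.bb_pf]
      have h2 : bb (LSUB.pf r (sd a T)) (T.erase t) = LSUB.pf r (sd a T) T := by
        show ∑ v ∈ (T.erase t)ᶜ, LSUB.pf r (sd a T) (insert v (T.erase t)) = _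
        rw [sum_eq_single t]
        · rw [insert_erase ht]
        · intro v hv hvt
          refine hpf0 T hST _ fun h => ?_
          have : t ∈ insert v (T.erase t) := by rw [h]; exact ht
          rcases mem_insert.mp this with h3 | h3
          · exact hvt h3.symm
          · exact notMem_erase t T h3
        · intro h
          exact absurd (mem_compl.mpr (notMem_erase t T)) h
      rw [← h2, h1, hbb T hST, pf_sum, Finset.sum_apply, sum_eq_single t]
      · exact ih _ (by rw [card_erase_of_mem ht, hT]; rfl) (hS _ _ (erase_subset _ _) hST)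
      · intro s hs hst
        refine hpf0 _ (hS _ _ (erase_subset _ _) hST) _ fun h => ?_
        have h3 : s ∈ T.erase t := mem_erase.mpr ⟨hst, hs⟩
        rw [h] at h3
        exact notMem_erase s T h3
      · intro h
        exact absurd ht h
  -- the subdivision of a chain
  set w : Finset N → ZMod 2 := ∑ T : Finset V, z T • sd a T with hw
  have hzS : ∀ T, z T ≠ 0 → S T ∧ T.card = i := fun T h => by
    by_contra h'
    exact h (hz T h')
  have hw1 : Ch G i w := by
    intro Q hQ'
    rw [hw, Finset.sum_apply]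
    refine sum_eq_zero fun T _ => ?_
    show z T * sd a T Q = 0
    by_contra h
    obtain ⟨h1, h2⟩ := hzS T (left_ne_zero_of_mul h)
    obtain ⟨-, h3, h4⟩ := hsupp T h1 Q (right_ne_zero_of_mul h)
    exact hQ' ⟨h3, h4.trans h2⟩
  have hw2 : bb w = 0 := by
    rw [hw, bb_sum]
    have h1 : ∀ T : Finset V, bb (z T • sd a T) = ∑ t ∈ T, z T • sd a (T.erase t) := by
      intro T
      rw [bb_smul]
      by_cases h : z T = 0
      · rw [h, zero_smul]
        exact (sum_eq_zero fun _ _ => zero_smul _ _).symm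
      · rw [hbb T (hzS T h).1, smul_sum]
    rw [sum_congr rfl fun T _ => h1 T]
    have h2 : ∑ T : Finset V, ∑ t ∈ T, z T • sd a (T.erase t) =
        ∑ U : Finset V, ∑ t ∈ Uᶜ, z (insert t U) • sd a U := by
      rw [sum_sigma', sum_sigma']
      refine sum_nbij' (fun p => ⟨p.1.erase p.2, p.2⟩) (fun p => ⟨insert p.2 p.1, p.2⟩) ?_ ?_ ?_ ?_ ?_
      · rintro ⟨D, v⟩ h
        simp only [mem_sigma, mem_univ, true_and, mem_compl] at h ⊢
        exact notMem_erase _ _
      · rintro ⟨D, v⟩ h
        simp only [mem_sigma, mem_univ, true_and, mem_compl] at h ⊢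
        exact mem_insert_self _ _
      · rintro ⟨D, v⟩ h
        simp only [mem_sigma, mem_univ, true_and, mem_compl] at h ⊢
        rw [insert_erase h]
      · rintro ⟨D, v⟩ h
        simp only [mem_sigma, mem_univ, true_and, mem_compl] at h ⊢
        rw [erase_insert h]
      · rintro ⟨D, v⟩ h
        simp only [mem_sigma, mem_univ, true_and] at h ⊢
        rw [insert_erase h]
    rw [h2]
    refine sum_eq_zero fun U _ => ?_
    rw [← sum_smul]
    have h3 : ∑ t ∈ Uᶜ, z (insert t U) = 0 := congrFun hz0 U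
    rw [h3, zero_smul]
  obtain ⟨y, hy1, hy2⟩ := hE w hw1 hw2
  refine ⟨LSUB.pf r y, ?_, ?_⟩
  · intro T hT
    unfold LSUB.pf
    refine sum_eq_zero fun C hC => ?_
    rw [mem_filter] at hC
    obtain ⟨-, h1, h2⟩ := hC
    by_contra h3
    have h4 : G.IsClique (C : Set N) ∧ C.card = i + 1 := by
      by_contra h4
      exact h3 (hy1 C h4)
    exact hT ⟨h1 ▸ hQ C h4.1, h2 ▸ h4.2⟩
  · rw [LSUB.bb_pf, hy2, hw, pf_sum]
    funext T
    rw [Finset.sum_apply, sum_eq_single T]
    · rw [pf_smul]
      show z T * LSUB.pf r (sd a T) T = z T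
      by_cases h : z T = 0
      · rw [h, zero_mul]
      · rw [hpf1 _ T rfl (hzS T h).1, mul_one]
    · intro U _ hU
      rw [pf_smul]
      show z U * LSUB.pf r (sd a U) T = 0
      by_cases h : z U = 0
      · rw [h, zero_mul]
      · rw [hpf0 U (hzS U h).1 T hU.symm, mul_zero]
    · intro h
      exact absurd (mem_univ T) h

end Pool.Agent.H56T.GA
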