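import Pool.Agent.H56T.Stm5
import Pool.Agent.H56T.TITS

/-! ORD: the exact order of the product of two generators. -/

set_option autoImplicit false

namespace Pool.Agent.H56T.GA.ORD

open Pool.Agent.H56T.LR Pool.Agent.H56T.LR.TITS Finset

variable {V : Type} [Fintype V] [DecidableEq V] {M : CoxeterMatrix V}

lemma rep_eq {ρ : M.Group →* ((V → ℝ) ≃ₗ[ℝ] (V → ℝ))} (hρ : IsRep M ρ) (v : V) :
    ρ (M.toCoxeterSystem.simple v) = rr M v := by
  ext1 x
  rw [hρ v x, rr_apply]
  rfl

lemma step (s t : V) {θ : ℝ} (hst : bf M s t = - Real.cos θ) (h : Real.sin θ ≠ 0) (k : ℤ) :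
    (rr M s * rr M t) (TITS.be s t θ k) = TITS.be s t θ (k + 2) := by
  change rr M s (rr M t (TITS.be s t θ k)) = _
  rw [rt_be hst h, map_neg, rs_be hst h, neg_neg]
  congr 1
  ring

lemma step_pow (s t : V) {θ : ℝ} (hst : bf M s t = - Real.cos θ) (h : Real.sin θ ≠ 0) (j : ℕ) (k : ℤ) :
    ((rr M s * rr M t) ^ j) (TITS.be s t θ k) = TITS.be s t θ (k + 2 * j) := by
  induction j with
  | zero => simp
  | succ j ih =>
    rw [pow_succ']
    change (rr M s * rr M t) (((rr M s * rr M t) ^ j) (TITS.be s t θ k)) = _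
    rw [ih, step s t hst h]
    congr 1
    push_cast
    ring

lemma par_step (s t : V) (hst : bf M s t = -1) (j : ℕ) :
    ((rr M s * rr M t) ^ j) (Pi.single s 1) =
      ((2 * j + 1 : ℝ)) • Pi.single s 1 + ((2 * j : ℝ)) • (Pi.single t 1 : V → ℝ) := by
  induction j with
  | zero => simp
  | succ j ih =>
    rw [pow_succ']
    change rr M s (rr M t (((rr M s * rr M t) ^ j) (Pi.single s 1))) = _
    rw [ih, rr_apply M t, map_add, map_smul, map_smul, Bf_single, Bf_single, bf_self, hst, rr_apply,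
      map_sub, map_add, map_smul, map_smul, map_smul, Bf_single, Bf_single, bf_self, bf_symm, hst]
    simp only [smul_eq_mul]
    push_cast
    module

end Pool.Agent.H56T.GA.ORD

namespace Pool.Agent.H56T.GA

open Pool.Agent.H56T.LR Pool.Agent.H56T.LR.TITS in
theorem t_ORD : S_ORD := by
  intro hW V _ _ M s t k hk
  obtain ⟨ρ, hρ⟩ := hW V M
  by_cases hst : s = t
  · subst hst
    rw [M.diagonal]
    exact one_dvd k
  have hρk : (rr M s * rr M t) ^ k = 1 := by
    rw [← ORD.rep_eq hρ s, ← ORD.rep_eq hρ t, ← map_mul, ← map_pow, hk, map_one]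
  by_cases h0 : M s t = 0
  · rw [h0, Nat.zero_dvd]
    have hb : bf M s t = -1 := by
      unfold bf
      rw [if_pos h0]
    have h1 := ORD.par_step s t hb k
    rw [hρk] at h1
    change (Pi.single s 1 : V → ℝ) = _ at h1
    have h2 := congrFun h1 t
    have hst' : t ≠ s := fun h => hst h.symm
    simp only [Pi.add_apply, Pi.smul_apply, Pi.single_eq_of_ne hst', Pi.single_eq_same, smul_eq_mul,
      mul_zero, zero_add, mul_one] at h2
    have h3 : (k : ℝ) = 0 := by linarith
    exact_mod_cast h3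
  have h1 : M s t ≠ 1 := M.off_diagonal s t hst
  have h2 : 2 ≤ M s t := by omega
  have h2' : (2 : ℝ) ≤ M s t := by exact_mod_cast h2
  have hpi := Real.pi_pos
  set θ : ℝ := Real.pi / M s t with hθ
  have hb : bf M s t = - Real.cos θ := by
    unfold bf
    rw [if_neg h0]
  have hsin : Real.sin θ ≠ 0 := by
    apply ne_of_gt
    apply Real.sin_pos_of_pos_of_lt_pi
    · positivity
    · rw [hθ, div_lt_iff₀ (by linarith)]
      nlinarith
  have h3 := ORD.step_pow s t hb hsin k 0
  rw [hρk] at h3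
  change TITS.be s t θ 0 = TITS.be s t θ (0 + 2 * k) at h3
  rw [be_zero hsin] at h3
  unfold TITS.be at h3
  have hst' : t ≠ s := fun h => hst h.symm
  have e1 := congrFun h3 s
  have e2 := congrFun h3 t
  simp only [Pi.smul_apply, Pi.add_apply, Pi.single_eq_same, Pi.single_eq_of_ne hst',
    Pi.single_eq_of_ne hst, smul_eq_mul, mul_one, mul_zero, add_zero, zero_add] at e1 e2
  push_cast at e1 e2
  have e3 : Real.sin (2 * k * θ) = 0 := by
    have : (Real.sin θ)⁻¹ ≠ 0 := inv_ne_zero hsin
    rcases mul_eq_zero.1 e2.symm with h | h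
    · exact absurd h this
    · exact h
  have e4 : Real.sin ((2 * k + 1) * θ) = Real.sin θ := by
    field_simp at e1
    exact e1.symm
  have e5 : Real.cos (2 * k * θ) = 1 := by
    have : (2 * (k : ℝ) + 1) * θ = 2 * k * θ + θ := by ring
    rw [this, Real.sin_add, e3, zero_mul, zero_add] at e4
    exact mul_right_cancel₀ hsin (by rw [e4, one_mul])
  obtain ⟨n, hn⟩ := (Real.cos_eq_one_iff _).1 e5
  have hM : (M s t : ℝ) ≠ 0 := by linarith
  have e6 : (n : ℝ) * M s t = k := by
    rw [hθ] at hn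
    field_simp at hn
    nlinarith
  have e7 : n * (M s t : ℤ) = k := by exact_mod_cast e6
  have e8 : (M s t : ℤ) ∣ (k : ℤ) := ⟨n, by rw [← e7]; ring⟩
  exact Int.natCast_dvd_natCast.1 e8

end Pool.Agent.H56T.GA
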