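import Pool.Agent.H56T.Stm5

/-!
# Project GA, piece PAR: exchange and parabolic decomposition in a Coxeter group
-/

set_option autoImplicit false

namespace Pool.Agent.H56T.GA

open Finset

namespace PAR

variable {B W : Type} [Group W] {M : CoxeterMatrix B} (cs : CoxeterSystem M W)

theorem exch (ω : List B) (i : B) (h : cs.IsRightDescent (cs.wordProd ω) i) :
    ∃ j < ω.length, cs.wordProd ω * cs.simple i = cs.wordProd (ω.eraseIdx j) := by
  classical
  have h1 := (cs.isRightInversion_simple_iff_isRightDescent (cs.wordProd ω) i).2 h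
  rw [Pool.Agent.Helper376.LC.rightInv_iff_eta, Pool.Agent.Helper376.LC.eta_wordProd] at h1
  have h2 : cs.simple i ∈ cs.rightInvSeq ω := by
    by_contra hn
    rw [List.count_eq_zero_of_not_mem hn] at h1
    simp at h1
  obtain ⟨j, hj, hj2⟩ := List.mem_iff_getElem.1 h2
  refine ⟨j, by rwa [cs.length_rightInvSeq] at hj, ?_⟩
  rw [← cs.wordProd_mul_getD_rightInvSeq, List.getD_eq_getElem _ _ hj, hj2]

theorem prod_mem (J : Set B) (ω : List B) (h : ∀ i ∈ ω, i ∈ J) : cs.wordProd ω ∈ parC cs J := by
  induction ω with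
  | nil => rw [cs.wordProd_nil]; exact one_mem _
  | cons i ω ih =>
    rw [cs.wordProd_cons]
    refine mul_mem (Subgroup.subset_closure ⟨i, h i (by simp), rfl⟩) (ih fun k hk => h k (by simp [hk]))

theorem exists_word (J : Set B) (w : W) (hw : w ∈ parC cs J) :
    ∃ ω : List B, (∀ i ∈ ω, i ∈ J) ∧ w = cs.wordProd ω := by
  unfold parC at hw
  induction hw using Subgroup.closure_induction with
  | mem x hx =>
    obtain ⟨i, hi, rfl⟩ := hx
    exact ⟨[i], by simpa using hi, by simp⟩
  | one => exact ⟨[], by simp, by simp⟩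
  | mul x y _ _ hx hy =>
    obtain ⟨ω, h1, rfl⟩ := hx
    obtain ⟨ω', h2, rfl⟩ := hy
    refine ⟨ω ++ ω', fun i hi => ?_, by rw [cs.wordProd_append]⟩
    rcases List.mem_append.1 hi with h | h
    · exact h1 i h
    · exact h2 i h
  | inv x _ hx =>
    obtain ⟨ω, h1, rfl⟩ := hx
    exact ⟨ω.reverse, fun i hi => h1 i (List.mem_reverse.1 hi), by rw [cs.wordProd_reverse]⟩

theorem red_word (J : Set B) (ω : List B) (h : ∀ i ∈ ω, i ∈ J) :
    ∃ ω' : List B, cs.IsReduced ω' ∧ (∀ i ∈ ω', i ∈ J) ∧ cs.wordProd ω = cs.wordProd ω' := by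
  induction ω using List.reverseRecOn with
  | nil => exact ⟨[], by simp [CoxeterSystem.IsReduced], by simp, rfl⟩
  | append_singleton ω i ih =>
    obtain ⟨ω', h1, h2, h3⟩ := ih fun k hk => h k (by simp [hk])
    have hi : i ∈ J := h i (by simp)
    by_cases hd : cs.IsRightDescent (cs.wordProd ω') i
    · obtain ⟨j, hj, hj2⟩ := exch cs ω' i hd
      refine ⟨ω'.eraseIdx j, ?_, fun k hk => h2 k (List.mem_of_mem_eraseIdx hk), ?_⟩
      · unfold CoxeterSystem.IsReduced
        rw [← hj2, List.length_eraseIdx_of_lt hj]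
        have h4 := cs.isRightDescent_iff.1 hd
        rw [h1.eq] at h4
        omega
      · rw [cs.wordProd_append, cs.wordProd_singleton, h3, hj2]
    · refine ⟨ω' ++ [i], ?_, fun k hk => ?_, ?_⟩
      · unfold CoxeterSystem.IsReduced
        rw [cs.wordProd_append, cs.wordProd_singleton, cs.not_isRightDescent_iff.1 hd, h1.eq]
        simp
      · rcases List.mem_append.1 hk with h' | h'
        · exact h2 k h'
        · rw [List.mem_singleton.1 h']
          exact hi
      · rw [cs.wordProd_append, cs.wordProd_append, h3]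

theorem word (J : Set B) (w : W) (hw : w ∈ parC cs J) :
    ∃ ω : List B, cs.IsReduced ω ∧ (∀ i ∈ ω, i ∈ J) ∧ w = cs.wordProd ω := by
  obtain ⟨ω, h1, rfl⟩ := exists_word cs J w hw
  exact red_word cs J ω h1

/-- an element of minimal length in the coset -/
theorem exists_min (J : Set B) (w : W) : ∃ u v : W, w = u * v ∧ v ∈ parC cs J ∧
    ∀ x ∈ parC cs J, cs.length u ≤ cs.length (u * x) := by
  obtain ⟨v, hv, hmin⟩ := WellFounded.has_min (measure fun v : W => cs.length (w * v)).wf
    (parC cs J : Set W) ⟨1, one_mem (parC cs J)⟩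
  refine ⟨w * v, v⁻¹, by group, inv_mem hv, fun x hx => ?_⟩
  have h1 := hmin (v * x) (mul_mem hv hx)
  have h2 : ¬ cs.length (w * (v * x)) < cs.length (w * v) := h1
  rw [mul_assoc]
  omega

theorem add_min (J : Set B) (u : W) (hu : ∀ x ∈ parC cs J, cs.length u ≤ cs.length (u * x))
    (ω : List B) (hω : cs.IsReduced ω) (hJ : ∀ i ∈ ω, i ∈ J) :
    cs.length (u * cs.wordProd ω) = cs.length u + ω.length := by
  induction ω using List.reverseRecOn with
  | nil => simp
  | append_singleton ω s ih =>
    have hω1 : cs.IsReduced ω := by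
      have := hω.take ω.length
      rwa [List.take_left] at this
    have hJ1 : ∀ i ∈ ω, i ∈ J := fun i hi => hJ i (by simp [hi])
    have hs : s ∈ J := hJ s (by simp)
    have ih' := ih hω1 hJ1
    obtain ⟨ωu, hωu, hu'⟩ := cs.exists_isReduced u
    by_cases hd : cs.IsRightDescent (u * cs.wordProd ω) s
    · exfalso
      rw [hu', ← cs.wordProd_append] at hd
      obtain ⟨j, hj, hj2⟩ := exch cs _ s hd
      by_cases hj3 : j < ωu.length
      · rw [List.eraseIdx_append_of_lt_length hj3, cs.wordProd_append, cs.wordProd_append] at hj2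
        -- a shorter element of the coset
        have h1 : u * (cs.wordProd ω * cs.simple s * (cs.wordProd ω)⁻¹) =
            cs.wordProd (ωu.eraseIdx j) := by
          rw [hu', ← mul_assoc, ← mul_assoc, hj2]
          group
        have h2 := hu (cs.wordProd ω * cs.simple s * (cs.wordProd ω)⁻¹)
          (mul_mem (mul_mem (prod_mem cs J ω hJ1) (Subgroup.subset_closure ⟨s, hs, rfl⟩))
            (inv_mem (prod_mem cs J ω hJ1)))
        rw [h1] at h2
        have h3 := cs.length_wordProd_le (ωu.eraseIdx j)
        rw [List.length_eraseIdx_of_lt hj3] at h3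
        have h4 := hωu.eq
        rw [← hu'] at h4
        omega
      · rw [not_lt] at hj3
        rw [List.eraseIdx_append_of_length_le hj3, cs.wordProd_append, cs.wordProd_append,
          mul_assoc] at hj2
        have h1 := mul_left_cancel hj2
        have h2 : cs.length (cs.wordProd (ω ++ [s])) = (ω ++ [s]).length := hω
        rw [cs.wordProd_append, cs.wordProd_singleton, h1] at h2
        have h3 := cs.length_wordProd_le (ω.eraseIdx (j - ωu.length))
        have h4 : (ω.eraseIdx (j - ωu.length)).length ≤ ω.length := List.length_eraseIdx_le _ _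
        rw [List.length_append, List.length_singleton] at h2
        omega
    · have h1 := cs.not_isRightDescent_iff.1 hd
      rw [cs.wordProd_append, cs.wordProd_singleton, ← mul_assoc, h1, ih', List.length_append,
        List.length_singleton]
      ring

theorem min_of_not (J : Set B) (u : W) (hu : ∀ s ∈ J, ¬ cs.IsRightDescent u s) :
    ∀ x ∈ parC cs J, cs.length u ≤ cs.length (u * x) := by
  obtain ⟨u₀, v₀, h1, h2, h3⟩ := exists_min cs J u
  obtain ⟨ω, hω, hωJ, hv⟩ := word cs J v₀ h2
  rcases List.eq_nil_or_concat ω with h4 | ⟨ω', s, h4⟩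
  · rw [h4, cs.wordProd_nil] at hv
    rw [hv, mul_one] at h1
    rw [h1]
    exact h3
  · exfalso
    rw [List.concat_eq_append] at h4
    subst h4
    have hs : s ∈ J := hωJ s (by simp)
    have hω1 : cs.IsReduced ω' := by
      have := hω.take ω'.length
      rwa [List.take_left] at this
    have e1 := add_min cs J u₀ h3 _ hω hωJ
    have e2 := add_min cs J u₀ h3 _ hω1 (fun i hi => hωJ i (by simp [hi]))
    apply hu s hs
    unfold CoxeterSystem.IsRightDescent
    have e3 : u * cs.simple s = u₀ * cs.wordProd ω' := by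
      rw [h1, hv, cs.wordProd_append, cs.wordProd_singleton, ← mul_assoc, mul_assoc _ (cs.simple s),
        cs.simple_mul_simple_self, mul_one]
    have e4 : cs.length u = cs.length u₀ + (ω' ++ [s]).length := by
      rw [h1, hv, e1]
    rw [e3, e2, e4, List.length_append, List.length_singleton]
    omega

end PAR

/-- **PAR.** -/
theorem t_PAR : S_PAR := by
  intro B W _ M cs
  refine ⟨PAR.exch cs, PAR.word cs, fun J w => ?_, fun J u v hu hv => ?_⟩
  · obtain ⟨u, v, h1, h2, h3⟩ := PAR.exists_min cs J w
    refine ⟨u, v, h1, h2, fun s hs hd => ?_⟩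
    have h4 := h3 (cs.simple s) (Subgroup.subset_closure ⟨s, hs, rfl⟩)
    unfold CoxeterSystem.IsRightDescent at hd
    omega
  · obtain ⟨ω, hω, hωJ, hv'⟩ := PAR.word cs J v hv
    have h1 := PAR.add_min cs J u (PAR.min_of_not cs J u hu) ω hω hωJ
    rw [hv', h1, hω.eq]

end Pool.Agent.H56T.GA
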