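import Pool.Agent.H56T.Stm5

/-!
# Project GA, piece THT (helper70)
-/

set_option autoImplicit false
set_option linter.unusedSectionVars false

namespace Pool.Agent.H56T.GA

open Pool.Agent.W907.SG Pool.Agent.H56T.LR Finset

namespace THT

section

variable {V : Type} [DecidableEq V] (M : CoxeterMatrix V)

/-- the signed lift -/
noncomputable def F (w : M.Group) : MonoidAlgebra ℤ (ArtG M) :=
  ((-1 : ℤ) ^ M.toCoxeterSystem.length w) • MonoidAlgebra.single (lft M w) (1 : ℤ)

variable {M}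

lemma F_mul (hL : LFTs M) {u v : M.Group} (h : M.toCoxeterSystem.length (u * v) =
    M.toCoxeterSystem.length u + M.toCoxeterSystem.length v) : F M (u * v) = F M u * F M v := by
  unfold F
  rw [h, hL.mul u v h, smul_mul_smul_comm, MonoidAlgebra.single_mul_single, one_mul, pow_add]

lemma F_one (hL : LFTs M) : F M 1 = 1 := by
  unfold F
  rw [CoxeterSystem.length_one, pow_zero, one_smul, hL.one]
  rfl

/-- the elements of `W_T` without descents in `S` -/
noncomputable def fs (D : M.Group → V → Prop) (T : Finset V) (hT : Sphl M T) (S : Finset V) :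
    Finset M.Group := by
  classical
  exact hT.toFinset.filter fun w => ∀ s ∈ S, ¬ D w s

lemma mem_fs {D : M.Group → V → Prop} {T : Finset V} {hT : Sphl M T} {S : Finset V}
    {w : M.Group} : w ∈ fs D T hT S ↔ w ∈ par M T ∧ ∀ s ∈ S, ¬ D w s := by
  classical
  unfold fs
  rw [Finset.mem_filter, Set.Finite.mem_toFinset]
  rfl

lemma finsum_eq (D : M.Group → V → Prop) (T : Finset V) (hT : Sphl M T) (S : Finset V) :
    ∑ᶠ w ∈ {w | w ∈ par M T ∧ ∀ s ∈ S, ¬ D w s}, F M w = ∑ w ∈ fs D T hT S, F M w := by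
  have h : {w | w ∈ par M T ∧ ∀ s ∈ S, ¬ D w s} = (fs D T hT S : Set M.Group) := by
    ext w
    rw [Finset.mem_coe, mem_fs]
    rfl
  rw [h, finsum_mem_coe_finset]

lemma tht_eq (T : Finset V) (hT : Sphl M T) (S : Finset V) :
    tht M T S = ∑ w ∈ fs (M.toCoxeterSystem.IsRightDescent) T hT S, F M w :=
  finsum_eq _ T hT S

lemma sphl_sub {S T : Finset V} (h : S ⊆ T) (hT : Sphl M T) : Sphl M S := by
  refine Set.Finite.subset hT ?_
  have h1 : par M S ≤ par M T := Subgroup.closure_mono (Set.image_mono (by exact_mod_cast h))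
  exact h1

lemma par_sub {S T : Finset V} (h : S ⊆ T) : par M S ≤ par M T :=
  Subgroup.closure_mono (Set.image_mono (by exact_mod_cast h))

/-- inclusion and exclusion -/
lemma alt_sum (D : M.Group → V → Prop) (T : Finset V) (hT : Sphl M T) :
    ∑ S ∈ T.powerset, ((-1 : ℤ) ^ S.card) • ∑ w ∈ fs D T hT S, F M w =
      ∑ᶠ w ∈ {w | w ∈ par M T ∧ ∀ s ∈ T, D w s}, F M w := by
  classical
  have h0 : ∀ S ∈ T.powerset, ((-1 : ℤ) ^ S.card) • ∑ w ∈ fs D T hT S, F M w =
      ∑ w ∈ hT.toFinset, (if ∀ s ∈ S, ¬ D w s then ((-1 : ℤ) ^ S.card) • F M w else 0) := by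
    intro S _
    rw [← Finset.sum_filter, Finset.smul_sum]
    refine Finset.sum_congr ?_ fun _ _ => rfl
    ext w
    rw [mem_fs, Finset.mem_filter, Set.Finite.mem_toFinset]
    rfl
  rw [Finset.sum_congr rfl h0, Finset.sum_comm]
  have h1 : ∀ w ∈ hT.toFinset, (∑ S ∈ T.powerset,
      (if ∀ s ∈ S, ¬ D w s then ((-1 : ℤ) ^ S.card) • F M w else 0)) =
      if ∀ s ∈ T, D w s then F M w else 0 := by
    intro w _
    have h2 : (∑ S ∈ T.powerset, (if ∀ s ∈ S, ¬ D w s then ((-1 : ℤ) ^ S.card) • F M w else 0)) =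
        ∑ S ∈ (T.filter fun s => ¬ D w s).powerset, ((-1 : ℤ) ^ S.card) • F M w := by
      rw [← Finset.sum_filter]
      refine Finset.sum_congr ?_ fun _ _ => rfl
      ext S
      simp only [Finset.mem_filter, Finset.mem_powerset, Finset.subset_iff]
      exact ⟨fun h s hs => ⟨h.1 hs, h.2 s hs⟩, fun h => ⟨fun s hs => (h hs).1,
        fun s hs => (h hs).2⟩⟩
    rw [h2, ← Finset.sum_smul, Finset.sum_powerset_neg_one_pow_card]
    by_cases h : ∀ s ∈ T, D w s
    · rw [if_pos h, if_pos, one_smul]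
      exact Finset.filter_eq_empty_iff.2 fun s hs => not_not.2 (h s hs)
    · rw [if_neg h, if_neg, zero_smul]
      intro h'
      exact h fun s hs => not_not.1 (Finset.filter_eq_empty_iff.1 h' hs)
  rw [Finset.sum_congr rfl h1, ← Finset.sum_filter]
  have h3 : {w | w ∈ par M T ∧ ∀ s ∈ T, D w s} =
      ((hT.toFinset.filter fun w => ∀ s ∈ T, D w s : Finset M.Group) : Set M.Group) := by
    ext w
    rw [Finset.mem_coe, Finset.mem_filter, Set.Finite.mem_toFinset]
    rfl
  rw [h3, finsum_mem_coe_finset]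

lemma mem_fs_empty {D : M.Group → V → Prop} {T : Finset V} {hT : Sphl M T} {w : M.Group} :
    w ∈ fs D T hT ∅ ↔ w ∈ par M T := by
  rw [mem_fs]
  exact ⟨fun h => h.1, fun h => ⟨h, fun s hs => absurd hs (Finset.notMem_empty s)⟩⟩

lemma right (hP : PARs M.toCoxeterSystem) (hL : LFTs M) {S T : Finset V} (hST : S ⊆ T)
    (hT : Sphl M T) (hS : Sphl M S) (D : M.Group → V → Prop) :
    ∑ w ∈ fs D T hT ∅, F M w =
      (∑ u ∈ fs (M.toCoxeterSystem.IsRightDescent) T hT S, F M u) *
        ∑ v ∈ fs (M.toCoxeterSystem.IsRightDescent) S hS ∅, F M v := by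
  rw [Finset.sum_mul_sum, ← Finset.sum_product']
  symm
  refine Finset.sum_bij (fun p _ => p.1 * p.2) ?_ ?_ ?_ ?_
  · rintro ⟨u, v⟩ h
    rw [Finset.mem_product, mem_fs, mem_fs_empty] at h
    rw [mem_fs_empty]
    exact (par M T).mul_mem h.1.1 (par_sub hST h.2)
  · rintro ⟨u, v⟩ h ⟨u', v'⟩ h' e
    rw [Finset.mem_product, mem_fs, mem_fs_empty] at h h'
    simp only at e h h'
    have e1 : u = u' * (v' * v⁻¹) := by
      rw [← mul_assoc, ← e, mul_inv_cancel_right]
    have e2 : u' = u * (v * v'⁻¹) := by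
      rw [← mul_assoc, e, mul_inv_cancel_right]
    have l1 := hP.add (S : Set V) u' (v' * v⁻¹) (fun s hs => h'.1.2 s (by exact_mod_cast hs))
      ((par M S).mul_mem h'.2 ((par M S).inv_mem h.2))
    have l2 := hP.add (S : Set V) u (v * v'⁻¹) (fun s hs => h.1.2 s (by exact_mod_cast hs))
      ((par M S).mul_mem h.2 ((par M S).inv_mem h'.2))
    rw [← e1] at l1
    rw [← e2] at l2
    have l3 : M.toCoxeterSystem.length (v' * v⁻¹) = 0 := by omega
    rw [CoxeterSystem.length_eq_zero_iff] at l3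
    rw [l3, mul_one] at e1
    have e3 : v' = v := mul_inv_eq_one.1 l3
    rw [e1, e3]
  · intro w hw
    rw [mem_fs_empty] at hw
    obtain ⟨u, v, e, hv, hu⟩ := hP.dec (S : Set V) w
    have hv' : v ∈ par M S := hv
    refine ⟨(u, v), ?_, e.symm⟩
    rw [Finset.mem_product, mem_fs, mem_fs_empty]
    refine ⟨⟨?_, fun s hs => hu s (by exact_mod_cast hs)⟩, hv'⟩
    have : u = w * v⁻¹ := by rw [e, mul_inv_cancel_right]
    simp only
    rw [this]
    exact (par M T).mul_mem hw ((par M T).inv_mem (par_sub hST hv'))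
  · rintro ⟨u, v⟩ h
    rw [Finset.mem_product, mem_fs, mem_fs_empty] at h
    exact (F_mul hL (hP.add (S : Set V) u v (fun s hs => h.1.2 s (by exact_mod_cast hs)) h.2)).symm

lemma left (hP : PARs M.toCoxeterSystem) (hL : LFTs M) {S T : Finset V} (hST : S ⊆ T)
    (hT : Sphl M T) (hS : Sphl M S) (D : M.Group → V → Prop) :
    ∑ w ∈ fs D T hT ∅, F M w =
      (∑ v ∈ fs (M.toCoxeterSystem.IsRightDescent) S hS ∅, F M v) *
      ∑ u ∈ fs (M.toCoxeterSystem.IsLeftDescent) T hT S, F M u := by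
  have hadd : ∀ v u : M.Group, v ∈ par M S →
      (∀ s ∈ S, ¬ M.toCoxeterSystem.IsLeftDescent u s) →
      M.toCoxeterSystem.length (v * u) = M.toCoxeterSystem.length v + M.toCoxeterSystem.length u := by
    intro v u hv hu
    have h := hP.add (S : Set V) u⁻¹ v⁻¹ (fun s hs => by
      rw [CoxeterSystem.isRightDescent_inv_iff]
      exact hu s (by exact_mod_cast hs)) ((par M S).inv_mem hv)
    rw [← mul_inv_rev, CoxeterSystem.length_inv, CoxeterSystem.length_inv,
      CoxeterSystem.length_inv] at h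
    omega
  rw [Finset.sum_mul_sum, ← Finset.sum_product']
  symm
  refine Finset.sum_bij (fun p _ => p.1 * p.2) ?_ ?_ ?_ ?_
  · rintro ⟨v, u⟩ h
    rw [Finset.mem_product, mem_fs_empty, mem_fs] at h
    rw [mem_fs_empty]
    exact (par M T).mul_mem (par_sub hST h.1) h.2.1
  · rintro ⟨v, u⟩ h ⟨v', u'⟩ h' e
    rw [Finset.mem_product, mem_fs_empty, mem_fs] at h h'
    simp only at e h h'
    have e1 : u = (v⁻¹ * v') * u' := by
      rw [mul_assoc, ← e, inv_mul_cancel_left]
    have e2 : u' = (v'⁻¹ * v) * u := by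
      rw [mul_assoc, e, inv_mul_cancel_left]
    have l1 := hadd (v⁻¹ * v') u' ((par M S).mul_mem ((par M S).inv_mem h.1) h'.1) h'.2.2
    have l2 := hadd (v'⁻¹ * v) u ((par M S).mul_mem ((par M S).inv_mem h'.1) h.1) h.2.2
    rw [← e1] at l1
    rw [← e2] at l2
    have l3 : M.toCoxeterSystem.length (v⁻¹ * v') = 0 := by omega
    rw [CoxeterSystem.length_eq_zero_iff] at l3
    rw [l3, one_mul] at e1
    have e3 : v = v' := inv_mul_eq_one.1 l3
    rw [e1, e3]
  · intro w hw
    rw [mem_fs_empty] at hw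
    obtain ⟨u, v, e, hv, hu⟩ := hP.dec (S : Set V) w⁻¹
    have hv' : v ∈ par M S := hv
    have e' : w = v⁻¹ * u⁻¹ := by rw [← mul_inv_rev, ← e, inv_inv]
    refine ⟨(v⁻¹, u⁻¹), ?_, e'.symm⟩
    rw [Finset.mem_product, mem_fs_empty, mem_fs]
    refine ⟨(par M S).inv_mem hv', ?_, fun s hs => ?_⟩
    · have : u⁻¹ = v * w := by rw [e', mul_inv_cancel_left]
      simp only
      rw [this]
      exact (par M T).mul_mem (par_sub hST hv') hw
    · rw [CoxeterSystem.isLeftDescent_inv_iff]
      exact hu s (by exact_mod_cast hs)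
  · rintro ⟨v, u⟩ h
    rw [Finset.mem_product, mem_fs_empty, mem_fs] at h
    exact (F_mul hL (hadd v u h.1 h.2.2)).symm

lemma no_desc (hP : PARs M.toCoxeterSystem) {T : Finset V} {w : M.Group} (hw : w ∈ par M T)
    (h : ∀ s ∈ T, ¬ M.toCoxeterSystem.IsRightDescent w s) : w = 1 := by
  have h1 := hP.add (T : Set V) w w⁻¹ (fun s hs => h s (by exact_mod_cast hs))
    ((par M T).inv_mem hw)
  rw [mul_inv_cancel, CoxeterSystem.length_one] at h1
  rw [← M.toCoxeterSystem.length_eq_zero_iff]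
  omega

lemma lng (hN : LNGs M.toCoxeterSystem) {T : Finset V} (hT : Sphl M T) :
    IsLng M.toCoxeterSystem (T : Set V) (wl M T) := by
  have h : ∃ v, IsLng M.toCoxeterSystem (T : Set V) v := hN.ex (T : Set V) hT
  unfold wl
  rw [dif_pos h]
  exact h.choose_spec

end

end THT

open THT in
theorem t_THT : S_THT := by
  intro hPAR hLng hLft V _ _ M
  have hP := hPAR V M.Group M M.toCoxeterSystem
  have hN := hLng V M.Group M M.toCoxeterSystem
  have hL := hLft V M
  have hw : ∀ T : Finset V, Sphl M T → ∀ D : M.Group → V → Prop,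
      (∀ w : M.Group, (w ∈ par M T ∧ ∀ s ∈ T, D w s) ↔ w = wl M T) →
      ∑ S ∈ T.powerset, ((-1 : ℤ) ^ S.card) • (∑ᶠ w ∈ {w | w ∈ par M T ∧ ∀ s ∈ S, ¬ D w s}, F M w) =
      ((-1 : ℤ) ^ M.toCoxeterSystem.length (wl M T)) •
        MonoidAlgebra.single (lft M (wl M T)) (1 : ℤ) := by
    intro T hT D hD
    rw [Finset.sum_congr rfl fun S _ => by rw [finsum_eq D T hT S], alt_sum D T hT]
    have h : {w | w ∈ par M T ∧ ∀ s ∈ T, D w s} = {wl M T} := by
      ext w
      exact hD w
    rw [h, finsum_mem_singleton]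
    rfl
  refine ⟨?_, ?_, ?_, ?_⟩
  · intro S T hST hT
    have hS := sphl_sub hST hT
    rw [tht_eq T hT, tht_eq T hT, tht_eq S hS]
    exact right hP hL hST hT hS _
  · intro T hT
    rw [tht_eq T hT]
    have h : fs M.toCoxeterSystem.IsRightDescent T hT T = {1} := by
      ext w
      rw [mem_fs, Finset.mem_singleton]
      refine ⟨fun h => no_desc hP h.1 h.2, fun h => ?_⟩
      rw [h]
      refine ⟨(par M T).one_mem, fun s _ h' => ?_⟩
      unfold CoxeterSystem.IsRightDescent at h'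
      rw [CoxeterSystem.length_one] at h'
      omega
    rw [h, Finset.sum_singleton, F_one hL]
  · intro T hT
    refine hw T hT M.toCoxeterSystem.IsRightDescent fun w => ⟨fun h => ?_, fun h => ?_⟩
    · exact hN.uniq (T : Set V) w _ ⟨h.1, fun s hs => h.2 s (by exact_mod_cast hs)⟩ (lng hN hT)
    · rw [h]
      exact ⟨(lng hN hT).mem, fun s hs => (lng hN hT).desc s (by exact_mod_cast hs)⟩
  · refine ⟨fun T S => ∑ᶠ w ∈ {w | w ∈ par M T ∧ ∀ s ∈ S, ¬ M.toCoxeterSystem.IsLeftDescent w s},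
      F M w, ?_, ?_, ?_⟩
    · intro S T hST hT
      have hS := sphl_sub hST hT
      rw [tht_eq T hT, tht_eq S hS]
      simp only
      rw [finsum_eq M.toCoxeterSystem.IsLeftDescent T hT S]
      exact left hP hL hST hT hS _
    · intro T hT
      simp only
      rw [finsum_eq M.toCoxeterSystem.IsLeftDescent T hT T]
      have h : fs M.toCoxeterSystem.IsLeftDescent T hT T = {1} := by
        ext w
        rw [mem_fs, Finset.mem_singleton]
        refine ⟨fun h => ?_, fun h => ?_⟩
        · have h1 := no_desc hP ((par M T).inv_mem h.1) fun s hs => by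
            rw [CoxeterSystem.isRightDescent_inv_iff]
            exact h.2 s hs
          exact inv_eq_one.1 h1
        · rw [h]
          refine ⟨(par M T).one_mem, fun s _ h' => ?_⟩
          unfold CoxeterSystem.IsLeftDescent at h'
          rw [CoxeterSystem.length_one] at h'
          omega
      rw [h, Finset.sum_singleton, F_one hL]
    · intro T hT
      have hsq : (wl M T)⁻¹ = wl M T := inv_eq_of_mul_eq_one_left (hN.sq (T : Set V) _ (lng hN hT))
      refine hw T hT M.toCoxeterSystem.IsLeftDescent fun w => ⟨fun h => ?_, fun h => ?_⟩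
      · have h1 : w⁻¹ = wl M T := by
          refine hN.uniq (T : Set V) w⁻¹ _ ⟨(par M T).inv_mem h.1, fun s hs => ?_⟩ (lng hN hT)
          rw [CoxeterSystem.isRightDescent_inv_iff]
          exact h.2 s (by exact_mod_cast hs)
        rw [← inv_inv w, h1, hsq]
      · rw [h]
        refine ⟨(lng hN hT).mem, fun s hs => ?_⟩
        rw [← CoxeterSystem.isRightDescent_inv_iff, hsq]
        exact (lng hN hT).desc s (by exact_mod_cast hs)

end Pool.Agent.H56T.GA
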