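import Pool.Agent.H56T.Stm5
import Pool.Agent.H56T.TITS

/-! WRP: the geometric representation of the Coxeter group. -/

set_option autoImplicit false

namespace Pool.Agent.H56T.GA.WRP

open Pool.Agent.H56T.LR Pool.Agent.H56T.LR.TITS Finset

lemma alt_mul_inv {G : Type} [Group G] (a b : G) (ha : a * a = 1) (hb : b * b = 1) (n : ℕ) :
    alt a b n * (alt b a n)⁻¹ = (if Even n then b * a else a * b) ^ n := by
  -- express the alternating words by powers
  have hpow : ∀ (n : ℕ) (a b : G), a * a = 1 → b * b = 1 →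
      alt a b n = (if Even n then (b * a) ^ (n / 2) else a * (b * a) ^ (n / 2)) := by
    intro n
    induction n with
    | zero => intro a b _ _; simp [alt]
    | succ n ih =>
      intro a b ha hb
      change alt b a n * a = _
      rw [ih b a hb ha]
      by_cases hn : Even n
      · have hn' : ¬ Even (n + 1) := by rwa [Nat.even_add_one, not_not]
        have h2 : (n + 1) / 2 = n / 2 := by
          obtain ⟨m, rfl⟩ := hn
          omega
        rw [if_pos hn, if_neg hn', h2, mul_pow_mul]
      · have hn' : Even (n + 1) := by rwa [Nat.even_add_one]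
        have h2 : (n + 1) / 2 = n / 2 + 1 := by
          obtain ⟨m, rfl⟩ := Nat.not_even_iff_odd.1 hn
          omega
        rw [if_neg hn, if_pos hn', h2, mul_assoc, mul_pow_mul, ← mul_assoc, pow_succ']
  rw [hpow n a b ha hb, hpow n b a hb ha]
  have hinv : (a * b)⁻¹ = b * a := by
    rw [mul_inv_rev, inv_eq_of_mul_eq_one_right ha, inv_eq_of_mul_eq_one_right hb]
  by_cases hn : Even n
  · obtain ⟨m, rfl⟩ := hn
    rw [if_pos ⟨m, rfl⟩, if_pos ⟨m, rfl⟩, if_pos ⟨m, rfl⟩, ← inv_pow, hinv, ← pow_add]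
    congr 1
    omega
  · obtain ⟨m, rfl⟩ := Nat.not_even_iff_odd.1 hn
    rw [if_neg hn, if_neg hn, if_neg hn, mul_inv_rev, ← inv_pow, hinv]
    have e1 : (2 * m + 1) / 2 = m := by omega
    rw [e1, inv_eq_of_mul_eq_one_right hb]
    calc a * (b * a) ^ m * ((b * a) ^ m * b) = a * ((b * a) ^ (m + m)) * b := by
          rw [pow_add]; simp only [mul_assoc]
      _ = (a * b) ^ (2 * m + 1) := by
          rw [← mul_pow_mul, mul_assoc, ← pow_succ, two_mul]

variable {V : Type} [Fintype V] [DecidableEq V] (M : CoxeterMatrix V)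

lemma rr_sq (v : V) : rr M v * rr M v = 1 := by
  ext1 x
  exact rl_inv M v x

lemma liftable : M.IsLiftable (fun v => rr M v) := by
  intro s t
  have h := congrArg (SemidirectProduct.rightHom) (rels M s t)
  rw [alt_map, alt_map] at h
  change alt (rr M s) (rr M t) _ = alt (rr M t) (rr M s) _ at h
  have h1 := alt_mul_inv (rr M s) (rr M t) (rr_sq M s) (rr_sq M t) (M s t)
  rw [h, mul_inv_cancel] at h1
  have hinv : (rr M s * rr M t)⁻¹ = rr M t * rr M s := by
    rw [mul_inv_rev, inv_eq_of_mul_eq_one_right (rr_sq M s), inv_eq_of_mul_eq_one_right (rr_sq M t)]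
  change (rr M s * rr M t) ^ M s t = 1
  split_ifs at h1
  · rw [← hinv, inv_pow] at h1
    exact (inv_eq_one.1 h1.symm)
  · exact h1.symm

end Pool.Agent.H56T.GA.WRP

namespace Pool.Agent.H56T.GA

open Pool.Agent.H56T.LR.TITS in
theorem t_WRP : S_WRP := by
  intro V _ _ M
  refine ⟨M.toCoxeterSystem.lift ⟨_, WRP.liftable M⟩, ?_⟩
  intro v x
  rw [CoxeterSystem.lift_apply_simple]
  exact rr_apply M v x

end Pool.Agent.H56T.GA
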